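import Mathlib

/-!
# Plurisubharmonic functions, the complex Monge-Ampère operator and the Cegrell classes

Definitions used in the statement about the Cegrell class `𝓔(Ω)`.
-/

open MeasureTheory Filter Topology Set

namespace Pool.Agent.Cegrell

/-- The space `ℂⁿ`. -/
abbrev Cn (n : ℕ) : Type := Fin n → ℂ

variable {n : ℕ}

/-- `u` is plurisubharmonic on the open set `Ω ⊆ ℂⁿ`: it takes values in `[-∞, ∞)` (the constant
`-∞` is allowed), is upper semicontinuous, and for every closed disc `{z + ζ ξ : |ζ| ≤ 1} ⊆ Ω` in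
a complex line its value at the centre is at most its mean over the boundary circle. (The mean of
an upper semicontinuous function over a circle is the infimum of the means of the continuous
functions `h` above it.) -/
structure PSH (Ω : Set (Cn n)) (u : Cn n → EReal) : Prop where
  usc : UpperSemicontinuousOn u Ω
  lt_top : ∀ z ∈ Ω, u z < ⊤
  submean : ∀ z ξ : Cn n, (∀ ζ : ℂ, ‖ζ‖ ≤ 1 → z + ζ • ξ ∈ Ω) →
    ∀ h : ℂ → ℝ, ContinuousOn h (Metric.sphere 0 1) →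
      (∀ ζ : ℂ, ‖ζ‖ = 1 → u (z + ζ • ξ) ≤ (h ζ : EReal)) →
      u z ≤ (Real.circleAverage h 0 1 : ℝ)

/-- `Ω` is a bounded hyperconvex domain: a bounded connected open set with a negative continuous
plurisubharmonic exhaustion function. -/
structure IsBoundedHyperconvex (Ω : Set (Cn n)) : Prop where
  isOpen : IsOpen Ω
  isConnected : IsConnected Ω
  isBounded : Bornology.IsBounded Ω
  exhaustion : ∃ ρ : Cn n → ℝ, ContinuousOn ρ Ω ∧ PSH Ω (fun z => (ρ z : EReal)) ∧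
    (∀ z ∈ Ω, ρ z < 0) ∧ ∀ c < 0, IsCompact {z | z ∈ Ω ∧ ρ z ≤ c}

/-- The Wirtinger derivative `∂g/∂z_j = (∂g/∂x_j - i ∂g/∂y_j) / 2`. -/
noncomputable def dz (j : Fin n) (g : Cn n → ℂ) (z : Cn n) : ℂ :=
  (fderiv ℝ g z (Pi.single j 1) - Complex.I * fderiv ℝ g z (Pi.single j Complex.I)) / 2

/-- The Wirtinger derivative `∂g/∂z̄_j = (∂g/∂x_j + i ∂g/∂y_j) / 2`. -/
noncomputable def dzbar (j : Fin n) (g : Cn n → ℂ) (z : Cn n) : ℂ :=
  (fderiv ℝ g z (Pi.single j 1) + Complex.I * fderiv ℝ g z (Pi.single j Complex.I)) / 2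

/-- The complex Hessian `(∂²f/∂z_j∂z̄_k)`. -/
noncomputable def levi (f : Cn n → ℝ) (z : Cn n) : Matrix (Fin n) (Fin n) ℂ :=
  Matrix.of fun j k => dz j (dzbar k (fun w => (f w : ℂ))) z

/-- For a smooth function `f`, the density `4ⁿ n! det(∂²f/∂z_j∂z̄_k)` of the complex Monge-Ampère
measure `(dd^c f)ⁿ` (with `dd^c = 2i∂∂̄`) with respect to Lebesgue measure. -/
noncomputable def maDensity (f : Cn n → ℝ) (z : Cn n) : ℝ :=
  4 ^ n * n.factorial * (levi f z).det.re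

/-- `f` is a decreasing sequence of `C^∞` plurisubharmonic functions on `U` converging pointwise
to `φ` on `U`. -/
structure SmoothApprox (U : Set (Cn n)) (f : ℕ → Cn n → ℝ) (φ : Cn n → EReal) : Prop where
  smooth : ∀ k, ContDiffOn ℝ (⊤ : ℕ∞) (f k) U
  psh : ∀ k, PSH U (fun z => (f k z : EReal))
  anti : ∀ z ∈ U, Antitone fun k => f k z
  lim : ∀ z ∈ U, Tendsto (fun k => (f k z : EReal)) atTop (𝓝 (φ z))

/-- `μ` is the Monge-Ampère measure `(dd^c φ)ⁿ` on `Ω` of the locally bounded plurisubharmonic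
function `φ`, in the sense of Bedford and Taylor: `μ` is finite on compact sets and, on every open
`U ⋐ Ω`, `φ` is the limit of a decreasing sequence of smooth plurisubharmonic functions, and for
every such sequence `f k` the measures `(dd^c f k)ⁿ` converge weakly to `μ` on `U`. -/
def IsMA (Ω : Set (Cn n)) (φ : Cn n → EReal) (μ : Measure (Cn n)) : Prop :=
  (∀ K ⊆ Ω, IsCompact K → μ K < ⊤) ∧
  ∀ U : Set (Cn n), IsOpen U → IsCompact (closure U) → closure U ⊆ Ω →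
    (∃ f, SmoothApprox U f φ) ∧
    ∀ f, SmoothApprox U f φ → ∀ χ : Cn n → ℝ, ContDiff ℝ (⊤ : ℕ∞) χ → HasCompactSupport χ →
      tsupport χ ⊆ U →
      Tendsto (fun k => ∫ z, χ z * maDensity (f k) z) atTop (𝓝 (∫ z, χ z ∂μ))

/-- The class `𝓔₀(Ω)`: bounded nonpositive plurisubharmonic functions with boundary values `0`
and finite total Monge-Ampère mass. -/
structure MemE0 (Ω : Set (Cn n)) (φ : Cn n → EReal) : Prop where
  psh : PSH Ω φ
  nonpos : ∀ z ∈ Ω, φ z ≤ 0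
  bounded : ∃ M : ℝ, ∀ z ∈ Ω, (M : EReal) ≤ φ z
  boundary : ∀ w ∈ frontier Ω, Tendsto φ (𝓝[Ω] w) (𝓝 0)
  finiteMass : ∃ μ : Measure (Cn n), IsMA Ω φ μ ∧ μ Ω < ⊤

/-- The Cegrell class `𝓔(Ω)`: nonpositive plurisubharmonic functions `u` such that every point of
`Ω` has a neighbourhood `U` and a sequence `φ j ∈ 𝓔₀(Ω)` decreasing to `u` on `U` with
`sup_j ∫_Ω (dd^c φ j)ⁿ < ∞`. -/
structure MemE (Ω : Set (Cn n)) (u : Cn n → EReal) : Prop where
  psh : PSH Ω u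
  nonpos : ∀ z ∈ Ω, u z ≤ 0
  approx : ∀ z ∈ Ω, ∃ U ∈ 𝓝 z, U ⊆ Ω ∧ ∃ φ : ℕ → Cn n → EReal, (∀ j, MemE0 Ω (φ j)) ∧
    (∀ w ∈ U, Antitone fun j => φ j w) ∧
    (∀ w ∈ U, Tendsto (fun j => φ j w) atTop (𝓝 (u w))) ∧
    ∃ C : ℝ, ∀ j, ∃ μ : Measure (Cn n), IsMA Ω (φ j) μ ∧ μ Ω ≤ ENNReal.ofReal C

/-- `D 0 ⋐ D 1 ⋐ ⋯` is an exhaustion of `Ω` by open sets. -/
structure IsExhaustion (Ω : Set (Cn n)) (D : ℕ → Set (Cn n)) : Prop where
  isOpen : ∀ j, IsOpen (D j)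
  isCompact_closure : ∀ j, IsCompact (closure (D j))
  closure_subset : ∀ j, closure (D j) ⊆ D (j + 1)
  iUnion_eq : ⋃ j, D j = Ω

/-- The envelope `sup {ψ ∈ PSH(Ω) : ψ ≤ u on Ω \ K}`. -/
noncomputable def env (Ω K : Set (Cn n)) (u : Cn n → EReal) (z : Cn n) : EReal :=
  ⨆ (ψ : Cn n → EReal) (_ : PSH Ω ψ ∧ ∀ w ∈ Ω \ K, ψ w ≤ u w), ψ z

/-- `ũ = (lim_j u^j)^*`, where `u^j = env Ω (D j) u` increases with `j` and `*` is the upper
semicontinuous regularisation on `Ω`. -/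
noncomputable def tilde (Ω : Set (Cn n)) (D : ℕ → Set (Cn n)) (u : Cn n → EReal) (z : Cn n) :
    EReal :=
  limsup (fun w => ⨆ j, env Ω (D j) u w) (𝓝[Ω] z)

/-- The class `𝓝(Ω) = {u ∈ 𝓔(Ω) : ũ = 0}`. -/
def MemN (Ω : Set (Cn n)) (D : ℕ → Set (Cn n)) (u : Cn n → EReal) : Prop :=
  MemE Ω u ∧ ∀ z ∈ Ω, tilde Ω D u z = 0

end Pool.Agent.Cegrell
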