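import Mathlib
import Pool.Agent.Hhelper45.Cegrell.Defs

open MeasureTheory Filter Topology Set

namespace Pool.Agent.Cegrell

variable {n : ℕ}

lemma cint {f : ℂ → ℝ} (hf : ContinuousOn f (Metric.sphere 0 1)) : CircleIntegrable f 0 1 :=
  ContinuousOn.circleIntegrable zero_le_one hf

lemma avg_mono {f g : ℂ → ℝ} (hf : ContinuousOn f (Metric.sphere 0 1))
    (hg : ContinuousOn g (Metric.sphere 0 1)) (h : ∀ ζ : ℂ, ‖ζ‖ = 1 → f ζ ≤ g ζ) :
    Real.circleAverage f 0 1 ≤ Real.circleAverage g 0 1 := by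
  apply Real.circleAverage_mono (cint hf) (cint hg)
  intro x hx
  apply h
  simpa using hx

/-- a disc `{z + ζ ξ : |ζ| ≤ 1}` is contained in `Ω` -/
def DiscIn (Ω : Set (Cn n)) (z ξ : Cn n) : Prop := ∀ ζ : ℂ, ‖ζ‖ ≤ 1 → z + ζ • ξ ∈ Ω

lemma DiscIn.center {Ω : Set (Cn n)} {z ξ : Cn n} (h : DiscIn Ω z ξ) : z ∈ Ω := by
  simpa using h 0 (by simp)

lemma disc_continuous (z ξ : Cn n) : Continuous fun ζ : ℂ => z + ζ • ξ := by fun_prop

lemma DiscIn.continuousOn {Ω : Set (Cn n)} {z ξ : Cn n} (h : DiscIn Ω z ξ) {f : Cn n → ℝ}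
    (hf : ContinuousOn f Ω) : ContinuousOn (fun ζ : ℂ => f (z + ζ • ξ)) (Metric.sphere 0 1) := by
  apply hf.comp (disc_continuous z ξ).continuousOn
  intro ζ hζ
  apply h
  simpa using (le_of_eq (by simpa using hζ : ‖ζ‖ = 1))

lemma PSH.of_real {Ω : Set (Cn n)} {f : Cn n → ℝ} (hf : ContinuousOn f Ω)
    (h : ∀ z ξ : Cn n, DiscIn Ω z ξ → f z ≤ Real.circleAverage (fun ζ => f (z + ζ • ξ)) 0 1) :
    PSH Ω (fun z => (f z : EReal)) where
  usc := (continuous_coe_real_ereal.comp_continuousOn hf).upperSemicontinuousOn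
  lt_top := fun z _ => EReal.coe_lt_top _
  submean := by
    intro z ξ hd g hg hfg
    have hd' : DiscIn Ω z ξ := hd
    rw [EReal.coe_le_coe_iff]
    refine (h z ξ hd').trans (avg_mono (hd'.continuousOn hf) hg ?_)
    intro ζ hζ
    exact_mod_cast hfg ζ hζ

/-- A maximum principle for plurisubharmonic functions against a strict supersolution. -/
lemma max_principle {Ω K B : Set (Cn n)} {ψ : Cn n → EReal} (hψ : PSH Ω ψ) (hK : IsCompact K)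
    (hKΩ : K ⊆ Ω) {k : Cn n → ℝ} (hk : ContinuousOn k K) {C : ℝ}
    (hB : ∀ z ∈ K, z ∈ B → ψ z ≤ ((k z + C : ℝ) : EReal))
    (hstrict : ∀ z ∈ K, z ∉ B → ∃ ξ : Cn n, DiscIn K z ξ ∧
      Real.circleAverage (fun ζ => k (z + ζ • ξ)) 0 1 < k z) :
    ∀ z ∈ K, ψ z ≤ ((k z + C : ℝ) : EReal) := by
  intro z₀ hz₀
  by_contra hcon
  rw [not_le] at hcon
  have husc : UpperSemicontinuousOn (fun z => ψ z + ((-k z : ℝ) : EReal)) K := by
    apply UpperSemicontinuousOn.add' (hψ.usc.mono hKΩ)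
    · exact (continuous_coe_real_ereal.comp_continuousOn hk.neg).upperSemicontinuousOn
    · intro x _
      apply EReal.continuousAt_add
      · right; exact EReal.coe_ne_bot _
      · right; exact EReal.coe_ne_top _
  obtain ⟨z₁, hz₁, hmax⟩ := husc.exists_isMaxOn ⟨z₀, hz₀⟩ hK
  -- `ψ z₁` is real
  have hψ0 : ψ z₀ ≠ ⊤ := (hψ.lt_top z₀ (hKΩ hz₀)).ne
  have hψ0' : ψ z₀ ≠ ⊥ := fun h => by rw [h] at hcon; exact not_lt_bot hcon
  have hψ1 : ψ z₁ ≠ ⊤ := (hψ.lt_top z₁ (hKΩ hz₁)).ne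
  obtain ⟨a₀, ha₀⟩ : ∃ a : ℝ, ψ z₀ = (a : EReal) := ⟨(ψ z₀).toReal, (EReal.coe_toReal hψ0 hψ0').symm⟩
  have h01 := hmax hz₀
  simp only [Set.mem_ofPred_eq] at h01
  have hψ1' : ψ z₁ ≠ ⊥ := by
    intro h
    rw [h, EReal.bot_add, le_bot_iff, ha₀, ← EReal.coe_add] at h01
    exact EReal.coe_ne_bot _ h01
  obtain ⟨a₁, ha₁⟩ : ∃ a : ℝ, ψ z₁ = (a : EReal) := ⟨(ψ z₁).toReal, (EReal.coe_toReal hψ1 hψ1').symm⟩
  rw [ha₀, ha₁, ← EReal.coe_add, ← EReal.coe_add, EReal.coe_le_coe_iff] at h01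
  rw [ha₀, EReal.coe_lt_coe_iff] at hcon
  have hnB : z₁ ∉ B := by
    intro hB1
    have := hB z₁ hz₁ hB1
    rw [ha₁, EReal.coe_le_coe_iff] at this
    linarith
  obtain ⟨ξ, hξ, hlt⟩ := hstrict z₁ hz₁ hnB
  have hall : ∀ z ∈ K, ψ z ≤ ((k z + (a₁ - k z₁) : ℝ) : EReal) := by
    intro z hz
    have hzle := hmax hz
    simp only [Set.mem_ofPred_eq] at hzle
    by_cases hb : ψ z = ⊥
    · rw [hb]; exact bot_le
    · have ht : ψ z ≠ ⊤ := (hψ.lt_top z (hKΩ hz)).ne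
      obtain ⟨a, ha⟩ : ∃ a : ℝ, ψ z = (a : EReal) := ⟨(ψ z).toReal, (EReal.coe_toReal ht hb).symm⟩
      rw [ha, ha₁, ← EReal.coe_add, ← EReal.coe_add, EReal.coe_le_coe_iff] at hzle
      rw [ha, EReal.coe_le_coe_iff]
      linarith
  have hsub := hψ.submean z₁ ξ (fun ζ hζ => hKΩ (hξ ζ hζ))
    (fun ζ => k (z₁ + ζ • ξ) + (a₁ - k z₁)) ((hξ.continuousOn hk).add continuousOn_const)
    (fun ζ hζ => hall _ (hξ ζ hζ.le))
  rw [ha₁, EReal.coe_le_coe_iff] at hsub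
  have hadd : Real.circleAverage (fun ζ => k (z₁ + ζ • ξ) + (a₁ - k z₁)) 0 1
      = Real.circleAverage (fun ζ => k (z₁ + ζ • ξ)) 0 1 + (a₁ - k z₁) := by
    rw [Real.circleAverage_fun_add (cint (hξ.continuousOn hk)) (cint continuousOn_const),
      Real.circleAverage_const]
  rw [hadd] at hsub
  linarith

end Pool.Agent.Cegrell
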