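import Mathlib
import Pool.Agent.Hhelper45.Cegrell.Basic

open MeasureTheory Filter Topology Set

namespace Pool.Agent.Cegrell

variable {n : ℕ}

/-- globally smooth complex valued functions -/
def SM (g : Cn n → ℂ) : Prop := ContDiff ℝ (⊤ : ℕ∞) g

lemma SM.diff {g : Cn n → ℂ} (hg : SM g) : Differentiable ℝ g :=
  ContDiff.differentiable hg (by simp)

lemma SM.fd {g : Cn n → ℂ} (hg : SM g) (v : Cn n) : SM fun z => fderiv ℝ g z v := by
  unfold SM at *
  have h1 : ContDiff ℝ (⊤ : ℕ∞) (fderiv ℝ g) := by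
    apply hg.fderiv_right
    norm_cast
  exact h1.clm_apply contDiff_const

lemma SM.mul {g h : Cn n → ℂ} (hg : SM g) (hh : SM h) : SM fun z => g z * h z :=
  ContDiff.mul hg hh
lemma SM.add {g h : Cn n → ℂ} (hg : SM g) (hh : SM h) : SM fun z => g z + h z :=
  ContDiff.add hg hh
lemma SM.sub {g h : Cn n → ℂ} (hg : SM g) (hh : SM h) : SM fun z => g z - h z :=
  ContDiff.sub hg hh

/-- general first order operator -/
noncomputable def op (c : ℂ) (v w : Cn n) (g : Cn n → ℂ) (z : Cn n) : ℂ :=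
  (fderiv ℝ g z v + c * fderiv ℝ g z w) / 2

lemma dz_eq (j : Fin n) (g : Cn n → ℂ) :
    dz j g = op (-Complex.I) (Pi.single j 1) (Pi.single j Complex.I) g := by
  funext z
  unfold dz op
  ring

lemma dzbar_eq (j : Fin n) (g : Cn n → ℂ) :
    dzbar j g = op Complex.I (Pi.single j 1) (Pi.single j Complex.I) g := rfl

lemma SM.op {g : Cn n → ℂ} (hg : SM g) (c : ℂ) (v w : Cn n) : SM (op c v w g) := by
  have h1 := hg.fd v
  have h2 := hg.fd w
  unfold SM at *
  unfold Cegrell.op
  exact (h1.add (contDiff_const.mul h2)).div_const _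

lemma SM.dz {g : Cn n → ℂ} (hg : SM g) (j : Fin n) : SM (dz j g) := by
  rw [dz_eq]; exact hg.op _ _ _
lemma SM.dzbar {g : Cn n → ℂ} (hg : SM g) (j : Fin n) : SM (dzbar j g) := by
  rw [dzbar_eq]; exact hg.op _ _ _

lemma fd_symm {g : Cn n → ℂ} (hg : SM g) (v w z : Cn n) :
    fderiv ℝ (fun y => fderiv ℝ g y v) z w = fderiv ℝ (fun y => fderiv ℝ g y w) z v := by
  have h1 : Differentiable ℝ (fderiv ℝ g) := by
    have : ContDiff ℝ (⊤ : ℕ∞) (fderiv ℝ g) := by
      apply ContDiff.fderiv_right (n := (⊤ : ℕ∞)) hg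
      norm_cast
    exact this.differentiable (by simp)
  have h2 : ∀ a : Cn n, fderiv ℝ (fun y => fderiv ℝ g y a) z = (fderiv ℝ (fderiv ℝ g) z).flip a := by
    intro a
    rw [fderiv_clm_apply h1.differentiableAt (differentiableAt_const a)]
    simp
  rw [h2, h2]
  have hs : IsSymmSndFDerivAt ℝ g z := by
    have hg' : ContDiffAt ℝ (⊤ : ℕ∞) g z := ContDiff.contDiffAt hg
    apply hg'.isSymmSndFDerivAt
    rw [minSmoothness_of_isRCLikeNormedField]
    have h2 : ((2 : ℕ∞) : WithTop ℕ∞) ≤ ((⊤ : ℕ∞) : WithTop ℕ∞) := WithTop.coe_le_coe.2 le_top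
    exact h2
  exact hs.eq w v

lemma op_comm {g : Cn n → ℂ} (hg : SM g) (c c' : ℂ) (v w v' w' : Cn n) :
    op c v w (op c' v' w' g) = op c' v' w' (op c v w g) := by
  have key : ∀ (c : ℂ) (a v w z : Cn n), fderiv ℝ (op c v w g) z a
      = (fderiv ℝ (fun y => fderiv ℝ g y v) z a + c * fderiv ℝ (fun y => fderiv ℝ g y w) z a) / 2 := by
    intro c a v w z
    have h1 : DifferentiableAt ℝ (fun y => fderiv ℝ g y v) z := (hg.fd v).diff z
    have h2 : DifferentiableAt ℝ (fun y => fderiv ℝ g y w) z := (hg.fd w).diff z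
    have h3 : HasFDerivAt (op c v w g) ((2 : ℂ)⁻¹ • (fderiv ℝ (fun y => fderiv ℝ g y v) z
        + c • fderiv ℝ (fun y => fderiv ℝ g y w) z)) z := by
      have := ((h1.hasFDerivAt).add (h2.hasFDerivAt.const_mul c)).const_mul ((2 : ℂ)⁻¹)
      refine this.congr_of_eventuallyEq (Eventually.of_forall fun y => ?_)
      simp only [op, Pi.add_apply]
      ring
    rw [h3.fderiv]
    simp only [smul_apply, add_apply, smul_eq_mul]
    ring
  funext z
  unfold op
  have e1 : ∀ a, fderiv ℝ (fun z => (fderiv ℝ g z v' + c' * fderiv ℝ g z w') / 2) z a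
      = fderiv ℝ (op c' v' w' g) z a := fun a => rfl
  have e2 : ∀ a, fderiv ℝ (fun z => (fderiv ℝ g z v + c * fderiv ℝ g z w) / 2) z a
      = fderiv ℝ (op c v w g) z a := fun a => rfl
  rw [e1, e1, e2, e2, key, key, key, key, fd_symm hg v' v, fd_symm hg w' v, fd_symm hg v' w,
    fd_symm hg w' w]
  ring

lemma op_mul {g h : Cn n → ℂ} (hg : SM g) (hh : SM h) (c : ℂ) (v w : Cn n) :
    op c v w (fun z => g z * h z) = fun z => op c v w g z * h z + g z * op c v w h z := by
  funext z
  unfold op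
  rw [fderiv_fun_mul (hg.diff z) (hh.diff z)]
  simp only [add_apply, smul_apply, smul_eq_mul]
  ring

lemma op_sub {g h : Cn n → ℂ} (hg : SM g) (hh : SM h) (c : ℂ) (v w : Cn n) :
    op c v w (fun z => g z - h z) = fun z => op c v w g z - op c v w h z := by
  funext z
  unfold op
  rw [fderiv_fun_sub (hg.diff z) (hh.diff z)]
  simp only [sub_apply]
  ring

lemma op_add {g h : Cn n → ℂ} (hg : SM g) (hh : SM h) (c : ℂ) (v w : Cn n) :
    op c v w (fun z => g z + h z) = fun z => op c v w g z + op c v w h z := by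
  funext z
  unfold op
  rw [fderiv_fun_add (hg.diff z) (hh.diff z)]
  simp only [add_apply]
  ring

lemma op_support {g : Cn n → ℂ} (c : ℂ) (v w : Cn n) : tsupport (op c v w g) ⊆ tsupport g := by
  apply closure_minimal _ (isClosed_tsupport g)
  intro z hz
  by_contra hcon
  apply hz
  have : fderiv ℝ g z = 0 := by
    have hev : g =ᶠ[𝓝 z] fun _ => 0 := by
      have : (tsupport g)ᶜ ∈ 𝓝 z := (isClosed_tsupport g).isOpen_compl.mem_nhds hcon
      filter_upwards [this] with y hy
      exact image_eq_zero_of_notMem_tsupport hy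
    rw [hev.fderiv_eq]; simp
  unfold op
  rw [this]
  simp

lemma hcs_op {g : Cn n → ℂ} (hg : HasCompactSupport g) (c : ℂ) (v w : Cn n) :
    HasCompactSupport (op c v w g) :=
  hg.of_isClosed_subset (isClosed_tsupport _) (op_support c v w)

/-- integration by parts, `g` compactly supported -/
lemma op_parts {g h : Cn n → ℂ} (hg : SM g) (hh : SM h) (hc : HasCompactSupport g) (c : ℂ)
    (v w : Cn n) : ∫ z, op c v w h z * g z = -∫ z, h z * op c v w g z := by
  have hint : ∀ (a : Cn n → ℂ), SM a → HasCompactSupport a → Integrable a := by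
    intro a ha hca
    exact (ContDiff.continuous ha).integrable_of_hasCompactSupport hca
  have hcfd : ∀ a : Cn n, HasCompactSupport fun z => fderiv ℝ g z a := fun a =>
    hc.fderiv_apply (𝕜 := ℝ) (v := a)
  have i1 : ∀ a : Cn n, Integrable fun z => fderiv ℝ h z a * g z := fun a =>
    hint _ ((hh.fd a).mul hg) (hc.mul_left)
  have i2 : ∀ a : Cn n, Integrable fun z => h z * fderiv ℝ g z a := fun a =>
    hint _ (hh.mul (hg.fd a)) ((hcfd a).mul_left)
  have i3 : Integrable fun z => h z * g z := hint _ (hh.mul hg) hc.mul_left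
  have p : ∀ a : Cn n, ∫ z, h z * fderiv ℝ g z a = - ∫ z, fderiv ℝ h z a * g z := fun a =>
    integral_mul_fderiv_eq_neg_fderiv_mul_of_integrable (i1 a) (i2 a) i3
      (fun x _ => hh.diff x) (fun x _ => hg.diff x)
  have e1 : ∀ z, op c v w h z * g z = (1 / 2) * (fderiv ℝ h z v * g z)
      + (c / 2) * (fderiv ℝ h z w * g z) := by intro z; unfold op; ring
  have e2 : ∀ z, h z * op c v w g z = (1 / 2) * (h z * fderiv ℝ g z v)
      + (c / 2) * (h z * fderiv ℝ g z w) := by intro z; unfold op; ring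
  simp_rw [e1, e2]
  rw [integral_add ((i1 v).const_mul _) ((i1 w).const_mul _),
    integral_add ((i2 v).const_mul _) ((i2 w).const_mul _),
    integral_const_mul, integral_const_mul, integral_const_mul, integral_const_mul, p, p]
  ring

end Pool.Agent.Cegrell
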