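import Mathlib
import Pool.Agent.Hhelper45.Cegrell.Calc

open MeasureTheory Filter Topology Set

namespace Pool.Agent.Cegrell

variable {n : ℕ}

lemma dz_mul {g h : Cn n → ℂ} (hg : SM g) (hh : SM h) (j : Fin n) :
    dz j (fun z => g z * h z) = fun z => dz j g z * h z + g z * dz j h z := by
  simp only [dz_eq]; exact op_mul hg hh _ _ _
lemma dzbar_mul {g h : Cn n → ℂ} (hg : SM g) (hh : SM h) (j : Fin n) :
    dzbar j (fun z => g z * h z) = fun z => dzbar j g z * h z + g z * dzbar j h z := by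
  simp only [dzbar_eq]; exact op_mul hg hh _ _ _
lemma dz_sub {g h : Cn n → ℂ} (hg : SM g) (hh : SM h) (j : Fin n) :
    dz j (fun z => g z - h z) = fun z => dz j g z - dz j h z := by
  simp only [dz_eq]; exact op_sub hg hh _ _ _
lemma dzbar_sub {g h : Cn n → ℂ} (hg : SM g) (hh : SM h) (j : Fin n) :
    dzbar j (fun z => g z - h z) = fun z => dzbar j g z - dzbar j h z := by
  simp only [dzbar_eq]; exact op_sub hg hh _ _ _
lemma dz_add {g h : Cn n → ℂ} (hg : SM g) (hh : SM h) (j : Fin n) :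
    dz j (fun z => g z + h z) = fun z => dz j g z + dz j h z := by
  simp only [dz_eq]; exact op_add hg hh _ _ _
lemma dzbar_add {g h : Cn n → ℂ} (hg : SM g) (hh : SM h) (j : Fin n) :
    dzbar j (fun z => g z + h z) = fun z => dzbar j g z + dzbar j h z := by
  simp only [dzbar_eq]; exact op_add hg hh _ _ _
lemma dz_dz {g : Cn n → ℂ} (hg : SM g) (j k : Fin n) : dz j (dz k g) = dz k (dz j g) := by
  simp only [dz_eq]; exact op_comm hg _ _ _ _ _ _
lemma dzbar_dzbar {g : Cn n → ℂ} (hg : SM g) (j k : Fin n) :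
    dzbar j (dzbar k g) = dzbar k (dzbar j g) := by
  simp only [dzbar_eq]; exact op_comm hg _ _ _ _ _ _
lemma dzbar_dz {g : Cn n → ℂ} (hg : SM g) (j k : Fin n) :
    dzbar j (dz k g) = dz k (dzbar j g) := by
  simp only [dzbar_eq, dz_eq]; exact op_comm hg _ _ _ _ _ _

lemma hcs_dz {g : Cn n → ℂ} (hg : HasCompactSupport g) (j : Fin n) : HasCompactSupport (dz j g) := by
  rw [dz_eq]; exact hcs_op hg _ _ _
lemma hcs_dzbar {g : Cn n → ℂ} (hg : HasCompactSupport g) (j : Fin n) :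
    HasCompactSupport (dzbar j g) := by
  rw [dzbar_eq]; exact hcs_op hg _ _ _

lemma dz_support {g : Cn n → ℂ} (j : Fin n) : tsupport (dz j g) ⊆ tsupport g := by
  rw [dz_eq]; exact op_support _ _ _
lemma dzbar_support {g : Cn n → ℂ} (j : Fin n) : tsupport (dzbar j g) ⊆ tsupport g := by
  rw [dzbar_eq]; exact op_support _ _ _

lemma dz_parts {g h : Cn n → ℂ} (hg : SM g) (hh : SM h) (hc : HasCompactSupport g) (j : Fin n) :
    ∫ z, dz j h z * g z = -∫ z, h z * dz j g z := by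
  simp only [dz_eq]; exact op_parts hg hh hc _ _ _
lemma dzbar_parts {g h : Cn n → ℂ} (hg : SM g) (hh : SM h) (hc : HasCompactSupport g) (j : Fin n) :
    ∫ z, dzbar j h z * g z = -∫ z, h z * dzbar j g z := by
  simp only [dzbar_eq]; exact op_parts hg hh hc _ _ _

lemma SM.integrable {a : Cn n → ℂ} (ha : SM a) (hca : HasCompactSupport a) : Integrable a :=
  (ContDiff.continuous ha).integrable_of_hasCompactSupport hca

/-- the mixed complex Hessian determinant in dimension two (twice the polarised determinant) -/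
noncomputable def Mx (g h : Cn 2 → ℂ) (z : Cn 2) : ℂ :=
  dz 0 (dzbar 0 g) z * dz 1 (dzbar 1 h) z + dz 1 (dzbar 1 g) z * dz 0 (dzbar 0 h) z
    - dz 0 (dzbar 1 g) z * dz 1 (dzbar 0 h) z - dz 1 (dzbar 0 g) z * dz 0 (dzbar 1 h) z

lemma Mx_parts {χ g h : Cn 2 → ℂ} (hχ : SM χ) (hg : SM g) (hh : SM h) (hc : HasCompactSupport χ) :
    ∫ z, χ z * Mx g h z = ∫ z, g z * Mx χ h z := by
  have H : ∀ j k, SM (dz j (dzbar k h)) := fun j k => (hh.dzbar k).dz j
  have X : ∀ j, SM (dz j χ) := fun j => hχ.dz j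
  have G : ∀ k, SM (dzbar k g) := fun k => hg.dzbar k
  -- step one
  set a0 : Cn 2 → ℂ := fun z => χ z * dz 1 (dzbar 1 h) z with ha0
  set a1 : Cn 2 → ℂ := fun z => χ z * dz 0 (dzbar 1 h) z with ha1
  set b1 : Cn 2 → ℂ := fun z => χ z * dz 0 (dzbar 0 h) z with hb1
  set b0 : Cn 2 → ℂ := fun z => χ z * dz 1 (dzbar 0 h) z with hb0
  have sa0 : SM a0 := hχ.mul (H _ _)
  have sa1 : SM a1 := hχ.mul (H _ _)
  have sb0 : SM b0 := hχ.mul (H _ _)
  have sb1 : SM b1 := hχ.mul (H _ _)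
  have ca0 : HasCompactSupport a0 := hc.mul_right
  have ca1 : HasCompactSupport a1 := hc.mul_right
  have cb0 : HasCompactSupport b0 := hc.mul_right
  have cb1 : HasCompactSupport b1 := hc.mul_right
  have i0 : Integrable fun z => dz 0 (dzbar 0 g) z * a0 z :=
    (((G 0).dz 0).mul sa0).integrable ca0.mul_left
  have i1 : Integrable fun z => dz 1 (dzbar 0 g) z * a1 z :=
    (((G 0).dz 1).mul sa1).integrable ca1.mul_left
  have i2 : Integrable fun z => dz 1 (dzbar 1 g) z * b1 z :=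
    (((G 1).dz 1).mul sb1).integrable cb1.mul_left
  have i3 : Integrable fun z => dz 0 (dzbar 1 g) z * b0 z :=
    (((G 1).dz 0).mul sb0).integrable cb0.mul_left
  have e1 : ∀ z, χ z * Mx g h z = (dz 0 (dzbar 0 g) z * a0 z - dz 1 (dzbar 0 g) z * a1 z)
      + (dz 1 (dzbar 1 g) z * b1 z - dz 0 (dzbar 1 g) z * b0 z) := by
    intro z
    simp only [Mx, ha0, ha1, hb0, hb1]
    ring
  simp_rw [e1]
  have i01 : Integrable fun z => dz 0 (dzbar 0 g) z * a0 z - dz 1 (dzbar 0 g) z * a1 z :=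
    i0.sub i1
  have i23 : Integrable fun z => dz 1 (dzbar 1 g) z * b1 z - dz 0 (dzbar 1 g) z * b0 z :=
    i2.sub i3
  rw [integral_add i01 i23, integral_sub i0 i1, integral_sub i2 i3,
    dz_parts sa0 (G 0) ca0, dz_parts sa1 (G 0) ca1, dz_parts sb1 (G 1) cb1,
    dz_parts sb0 (G 1) cb0]
  -- combine
  set P : Cn 2 → ℂ := fun z => dz 0 χ z * dz 1 (dzbar 1 h) z - dz 1 χ z * dz 0 (dzbar 1 h) z with hP
  set Q' : Cn 2 → ℂ := fun z => dz 1 χ z * dz 0 (dzbar 0 h) z - dz 0 χ z * dz 1 (dzbar 0 h) z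
    with hQ
  have sP : SM P := ((X 0).mul (H 1 1)).sub ((X 1).mul (H 0 1))
  have sQ : SM Q' := ((X 1).mul (H 0 0)).sub ((X 0).mul (H 1 0))
  have cP : HasCompactSupport P := by
    apply HasCompactSupport.of_support_subset_isCompact hc
    intro z hz
    by_contra hcon
    apply hz
    have h0 : dz 0 χ z = 0 := image_eq_zero_of_notMem_tsupport fun h => hcon (dz_support 0 h)
    have h1 : dz 1 χ z = 0 := image_eq_zero_of_notMem_tsupport fun h => hcon (dz_support 1 h)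
    simp [hP, h0, h1]
  have cQ : HasCompactSupport Q' := by
    apply HasCompactSupport.of_support_subset_isCompact hc
    intro z hz
    by_contra hcon
    apply hz
    have h0 : dz 0 χ z = 0 := image_eq_zero_of_notMem_tsupport fun h => hcon (dz_support 0 h)
    have h1 : dz 1 χ z = 0 := image_eq_zero_of_notMem_tsupport fun h => hcon (dz_support 1 h)
    simp [hQ, h0, h1]
  have eP : ∀ z, dz 0 a0 z - dz 1 a1 z = P z := by
    intro z
    have h1 : dz 0 (dz 1 (dzbar 1 h)) = dz 1 (dz 0 (dzbar 1 h)) := dz_dz (hh.dzbar 1) 0 1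
    rw [ha0, ha1, dz_mul hχ (H 1 1), dz_mul hχ (H 0 1), h1, hP]
    ring
  have eQ : ∀ z, dz 1 b1 z - dz 0 b0 z = Q' z := by
    intro z
    have h1 : dz 0 (dz 1 (dzbar 0 h)) = dz 1 (dz 0 (dzbar 0 h)) := dz_dz (hh.dzbar 0) 0 1
    rw [hb0, hb1, dz_mul hχ (H 0 0), dz_mul hχ (H 1 0), h1, hQ]
    ring
  have j0 : Integrable fun z => dzbar 0 g z * dz 0 a0 z :=
    ((G 0).mul (sa0.dz 0)).integrable (hcs_dz ca0 0).mul_left
  have j1 : Integrable fun z => dzbar 0 g z * dz 1 a1 z :=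
    ((G 0).mul (sa1.dz 1)).integrable (hcs_dz ca1 1).mul_left
  have j2 : Integrable fun z => dzbar 1 g z * dz 1 b1 z :=
    ((G 1).mul (sb1.dz 1)).integrable (hcs_dz cb1 1).mul_left
  have j3 : Integrable fun z => dzbar 1 g z * dz 0 b0 z :=
    ((G 1).mul (sb0.dz 0)).integrable (hcs_dz cb0 0).mul_left
  have c1 : -(∫ z, dzbar 0 g z * dz 0 a0 z) - -(∫ z, dzbar 0 g z * dz 1 a1 z)
      = -∫ z, dzbar 0 g z * P z := by
    rw [neg_sub_neg, ← neg_sub, ← integral_sub j0 j1]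
    congr 1
    apply integral_congr_ae
    filter_upwards with z
    rw [← eP]; ring
  have c2 : -(∫ z, dzbar 1 g z * dz 1 b1 z) - -(∫ z, dzbar 1 g z * dz 0 b0 z)
      = -∫ z, dzbar 1 g z * Q' z := by
    rw [neg_sub_neg, ← neg_sub, ← integral_sub j2 j3]
    congr 1
    apply integral_congr_ae
    filter_upwards with z
    rw [← eQ]; ring
  rw [c1, c2, dzbar_parts sP hg cP, dzbar_parts sQ hg cQ, neg_neg, neg_neg, ← integral_add
    ((hg.mul (sP.dzbar 0)).integrable (hcs_dzbar cP 0).mul_left)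
    ((hg.mul (sQ.dzbar 1)).integrable (hcs_dzbar cQ 1).mul_left)]
  apply integral_congr_ae
  filter_upwards with z
  have k1 : dzbar 0 (dz 1 (dzbar 1 h)) = dzbar 1 (dz 1 (dzbar 0 h)) := by
    rw [dzbar_dz (hh.dzbar 1), dzbar_dz (hh.dzbar 0), dzbar_dzbar hh]
  have k2 : dzbar 0 (dz 0 (dzbar 1 h)) = dzbar 1 (dz 0 (dzbar 0 h)) := by
    rw [dzbar_dz (hh.dzbar 1), dzbar_dz (hh.dzbar 0), dzbar_dzbar hh]
  rw [hP, hQ, dzbar_sub ((X 0).mul (H 1 1)) ((X 1).mul (H 0 1)),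
    dzbar_sub ((X 1).mul (H 0 0)) ((X 0).mul (H 1 0))]
  simp only []
  rw [dzbar_mul (X 0) (H 1 1), dzbar_mul (X 1) (H 0 1), dzbar_mul (X 1) (H 0 0),
    dzbar_mul (X 0) (H 1 0), k1, k2, dzbar_dz hχ, dzbar_dz hχ, dzbar_dz hχ, dzbar_dz hχ, Mx]
  ring

end Pool.Agent.Cegrell
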