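import Mathlib
import Pool.Agent.Hhelper45.Cegrell.Basic

open MeasureTheory Filter Topology Set

namespace Pool.Agent.Cegrell

/-- `log |z₀|` -/
noncomputable def ls (z : Cn 2) : ℝ := Real.log ‖z 0‖
/-- `log |z₁|` -/
noncomputable def lt (z : Cn 2) : ℝ := Real.log ‖z 1‖

/-- `(ℂ*)²` -/
def Tor : Set (Cn 2) := {z | z 0 ≠ 0 ∧ z 1 ≠ 0}

/-- the domain -/
def Om : Set (Cn 2) := {z | (z 0 ≠ 0 ∧ z 1 ≠ 0) ∧ ls z ^ 2 + lt z ^ 2 < lt z}

lemma isOpen_Tor : IsOpen Tor := by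
  apply IsOpen.inter
  · exact isOpen_ne_fun (continuous_apply 0) continuous_const
  · exact isOpen_ne_fun (continuous_apply 1) continuous_const

lemma ls_contAt {z : Cn 2} (hz : z 0 ≠ 0) : ContinuousAt ls z := by
  unfold ls
  apply ContinuousAt.log
  · exact (continuous_apply 0).norm.continuousAt
  · simpa using hz

lemma lt_contAt {z : Cn 2} (hz : z 1 ≠ 0) : ContinuousAt lt z := by
  unfold lt
  apply ContinuousAt.log
  · exact (continuous_apply 1).norm.continuousAt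
  · simpa using hz

lemma ls_cont : ContinuousOn ls Tor := fun _ hz => (ls_contAt hz.1).continuousWithinAt
lemma lt_cont : ContinuousOn lt Tor := fun _ hz => (lt_contAt hz.2).continuousWithinAt

lemma Om_sub_Tor : Om ⊆ Tor := fun _ hz => hz.1

lemma isOpen_Om : IsOpen Om := by
  have : Om = Tor ∩ (fun z => lt z - (ls z ^ 2 + lt z ^ 2)) ⁻¹' Set.Ioi 0 := by
    ext z
    constructor
    · intro hz
      exact ⟨hz.1, sub_pos.2 hz.2⟩
    · intro hz
      exact ⟨hz.1, sub_pos.1 hz.2⟩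
  rw [this]
  apply ContinuousOn.isOpen_inter_preimage _ isOpen_Tor isOpen_Ioi
  exact lt_cont.sub ((ls_cont.pow 2).add (lt_cont.pow 2))

section
variable {z : Cn 2}

lemma Om.lt_pos (hz : z ∈ Om) : 0 < lt z := by
  have := hz.2
  nlinarith [sq_nonneg (ls z), sq_nonneg (lt z)]

lemma Om.lt_lt_one (hz : z ∈ Om) : lt z < 1 := by
  have := hz.2
  have h0 := Om.lt_pos hz
  by_contra hcon
  push Not at hcon
  nlinarith [sq_nonneg (ls z)]

lemma Om.ls_sq (hz : z ∈ Om) : ls z ^ 2 < 1 := by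
  have := hz.2
  have h1 := Om.lt_lt_one hz
  nlinarith [sq_nonneg (lt z)]
end

/-! mean values of `log |z_j|` over discs -/

lemma avg_log {z ξ : Cn 2} (j : Fin 2) (h : ∀ ζ : ℂ, ‖ζ‖ ≤ 1 → (z + ζ • ξ) j ≠ 0) :
    Real.circleAverage (fun ζ => Real.log ‖(z + ζ • ξ) j‖) 0 1 = Real.log ‖z j‖ := by
  have := AnalyticOnNhd.circleAverage_log_norm_of_ne_zero (R := 1) (c := 0)
    (g := fun ζ : ℂ => z j + ζ * ξ j) ?_ ?_
  · simpa using this
  · intro x _
    fun_prop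
  · intro u hu
    have := h u (by simpa using hu)
    simpa using this

lemma avg_ls {z ξ : Cn 2} (h : DiscIn Tor z ξ) :
    Real.circleAverage (fun ζ => ls (z + ζ • ξ)) 0 1 = ls z :=
  avg_log 0 fun ζ hζ => (h ζ hζ).1

lemma avg_lt {z ξ : Cn 2} (h : DiscIn Tor z ξ) :
    Real.circleAverage (fun ζ => lt (z + ζ • ξ)) 0 1 = lt z :=
  avg_log 1 fun ζ hζ => (h ζ hζ).2

lemma DiscIn.mono {n : ℕ} {U V : Set (Cn n)} {z ξ : Cn n} (h : DiscIn U z ξ) (hUV : U ⊆ V) :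
    DiscIn V z ξ := fun ζ hζ => hUV (h ζ hζ)

lemma avg_smul' (b : ℝ) (f : ℂ → ℝ) :
    Real.circleAverage (fun ζ => b * f ζ) 0 1 = b * Real.circleAverage f 0 1 := by
  have := Real.circleAverage_fun_smul (a := b) (f := f) (c := 0) (R := 1)
  simpa only [smul_eq_mul] using this

lemma avg_add' {f g : ℂ → ℝ} (hf : ContinuousOn f (Metric.sphere 0 1))
    (hg : ContinuousOn g (Metric.sphere 0 1)) :
    Real.circleAverage (fun ζ => f ζ + g ζ) 0 1
      = Real.circleAverage f 0 1 + Real.circleAverage g 0 1 :=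
  Real.circleAverage_fun_add (cint hf) (cint hg)

lemma avg_lin {f g : ℂ → ℝ} (hf : ContinuousOn f (Metric.sphere 0 1))
    (hg : ContinuousOn g (Metric.sphere 0 1)) (a b c : ℝ) :
    Real.circleAverage (fun ζ => a + b * f ζ + c * g ζ) 0 1
      = a + b * Real.circleAverage f 0 1 + c * Real.circleAverage g 0 1 := by
  have h1 : ContinuousOn (fun ζ => b * f ζ) (Metric.sphere 0 1) := continuousOn_const.mul hf
  have h2 : ContinuousOn (fun ζ => c * g ζ) (Metric.sphere 0 1) := continuousOn_const.mul hg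
  have h3 : ContinuousOn (fun _ : ℂ => a) (Metric.sphere 0 1) := continuousOn_const
  have h4 : ContinuousOn (fun ζ => a + b * f ζ) (Metric.sphere 0 1) := h3.add h1
  rw [avg_add' h4 h2, avg_add' h3 h1, avg_smul', avg_smul', Real.circleAverage_const]

/-- average of `a + b ls + c lt` -/
lemma avg_affine {z ξ : Cn 2} (h : DiscIn Tor z ξ) (a b c : ℝ) :
    Real.circleAverage (fun ζ => a + b * ls (z + ζ • ξ) + c * lt (z + ζ • ξ)) 0 1
      = a + b * ls z + c * lt z := by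
  have h1 : ContinuousOn (fun ζ : ℂ => ls (z + ζ • ξ)) (Metric.sphere 0 1) := h.continuousOn ls_cont
  have h2 : ContinuousOn (fun ζ : ℂ => lt (z + ζ • ξ)) (Metric.sphere 0 1) := h.continuousOn lt_cont
  rw [avg_lin h1 h2, avg_ls h, avg_lt h]

/-- sub-mean value property of `F(log|z₀|, log|z₁|)` from supporting affine functions -/
lemma submean_of_support {F : ℝ → ℝ → ℝ} (hF : ContinuousOn (fun z : Cn 2 => F (ls z) (lt z)) Om)
    (hsup : ∀ s₀ t₀ : ℝ, s₀ ^ 2 + t₀ ^ 2 < t₀ → ∃ a b : ℝ, ∀ s t : ℝ, s ^ 2 + t ^ 2 < t →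
      F s₀ t₀ + a * (s - s₀) + b * (t - t₀) ≤ F s t) {z ξ : Cn 2} (hd : DiscIn Om z ξ) :
    F (ls z) (lt z) ≤ Real.circleAverage (fun ζ => F (ls (z + ζ • ξ)) (lt (z + ζ • ξ))) 0 1 := by
  obtain ⟨a, b, hab⟩ := hsup (ls z) (lt z) hd.center.2
  have hT : DiscIn Tor z ξ := hd.mono Om_sub_Tor
  have h1 := avg_affine hT (F (ls z) (lt z) - a * ls z - b * lt z) a b
  have h2 : F (ls z) (lt z) - a * ls z - b * lt z + a * ls z + b * lt z = F (ls z) (lt z) := by ring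
  rw [h2] at h1
  rw [← h1]
  apply avg_mono
  · exact (continuousOn_const.add (continuousOn_const.mul (hT.continuousOn ls_cont))).add
      (continuousOn_const.mul (hT.continuousOn lt_cont))
  · exact hd.continuousOn hF
  · intro ζ hζ
    have := hab (ls (z + ζ • ξ)) (lt (z + ζ • ξ)) (hd ζ hζ.le).2
    linarith

/-! small discs -/

lemma exists_small_disc {n : ℕ} {U : Set (Cn n)} {z : Cn n} (hU : U ∈ 𝓝 z) (ξ : Cn n) :
    ∃ r₀ > 0, ∀ r : ℝ, 0 ≤ r → r ≤ r₀ → DiscIn U z ((r : ℂ) • ξ) := by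
  obtain ⟨ε, hε, hball⟩ := Metric.mem_nhds_iff.1 hU
  refine ⟨ε / (2 * (‖ξ‖ + 1)), by positivity, fun r hr hr' ζ hζ => hball ?_⟩
  rw [Metric.mem_ball, dist_eq_norm, add_sub_cancel_left, norm_smul, norm_smul]
  have h1 : ‖(r : ℂ)‖ = r := by simp [abs_of_nonneg hr]
  rw [h1]
  have h2 : r * ‖ξ‖ ≤ ε / (2 * (‖ξ‖ + 1)) * (‖ξ‖ + 1) := by
    apply mul_le_mul hr' (by linarith) (norm_nonneg _) (by positivity)
  have h3 : ε / (2 * (‖ξ‖ + 1)) * (‖ξ‖ + 1) = ε / 2 := by field_simp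
  calc ‖ζ‖ * (r * ‖ξ‖) ≤ 1 * (r * ‖ξ‖) := by gcongr
    _ ≤ ε / 2 := by rw [one_mul]; linarith
    _ < ε := by linarith

/-- the real part squared has mean `1/2` -/
lemma avg_re_sq : Real.circleAverage (fun ζ : ℂ => ζ.re ^ 2) 0 1 = 1 / 2 := by
  rw [Real.circleAverage_def]
  have : ∀ θ : ℝ, (circleMap 0 1 θ).re ^ 2 = Real.cos θ ^ 2 := by
    intro θ
    simp [circleMap, Complex.exp_ofReal_mul_I_re]
  simp_rw [this]
  rw [integral_cos_sq]
  simp
  field_simp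

lemma log_one_add_bound {η : ℂ} (h : ‖η‖ ≤ 1 / 2) : |Real.log ‖1 + η‖ - η.re| ≤ ‖η‖ ^ 2 := by
  have h1 : ‖η‖ < 1 := by linarith
  have h2 := Complex.norm_log_one_add_sub_self_le h1
  have h3 : (Complex.log (1 + η) - η).re = Real.log ‖1 + η‖ - η.re := by
    rw [Complex.sub_re, Complex.log_re]
  rw [← h3]
  refine (Complex.abs_re_le_norm _).trans (h2.trans ?_)
  have h4 : (1 - ‖η‖)⁻¹ ≤ 2 := by
    rw [inv_le_comm₀ (by linarith) (by norm_num)]
    linarith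
  have := sq_nonneg ‖η‖
  nlinarith

end Pool.Agent.Cegrell
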