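import Mathlib
import Pool.Agent.Hhelper45.Cegrell.Domain

open MeasureTheory Filter Topology Set

namespace Pool.Agent.Cegrell

variable {n : ℕ}

lemma taylor2 {E : Type*} [NormedAddCommGroup E] [NormedSpace ℝ E] {f : E → ℝ} {z : E}
    (hf : ContDiffAt ℝ 2 f z) {ε : ℝ} (hε : 0 < ε) :
    ∃ δ > 0, ∀ v : E, ‖v‖ < δ →
      |f (z + v) - f z - fderiv ℝ f z v - 1 / 2 * fderiv ℝ (fderiv ℝ f) z v v| ≤ ε * ‖v‖ ^ 2 := by
  have h1 : ∀ᶠ y in 𝓝 z, ContDiffAt ℝ 2 f y := hf.eventually (by simp)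
  have h2 : ContinuousAt (iteratedFDeriv ℝ 2 f) z := by
    have := hf.continuousAt_iteratedFDeriv (k := 2) le_rfl
    exact this
  have h3 : ∀ᶠ y in 𝓝 z, ‖iteratedFDeriv ℝ 2 f y - iteratedFDeriv ℝ 2 f z‖ < ε := by
    have := h2.eventually (Metric.ball_mem_nhds _ hε)
    filter_upwards [this] with y hy
    simpa [dist_eq_norm] using hy
  obtain ⟨δ, hδ, hball⟩ := Metric.eventually_nhds_iff_ball.1 (h1.and h3)
  refine ⟨δ, hδ, fun v hv => ?_⟩
  have hmem : ∀ t ∈ Set.Icc (0 : ℝ) 1, z + t • v ∈ Metric.ball z δ := by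
    intro t ht
    rw [Metric.mem_ball, dist_eq_norm, add_sub_cancel_left, norm_smul, Real.norm_eq_abs,
      abs_of_nonneg ht.1]
    calc t * ‖v‖ ≤ 1 * ‖v‖ := by gcongr; exact ht.2
      _ < δ := by rw [one_mul]; exact hv
  have htay := map_add_eq_sum_add_integral_iteratedFDeriv (n := 1) (f := f) (x := z) (y := v)
    (fun t ht => by
      have := (hball _ (hmem t ht)).1
      simpa [one_add_one_eq_two] using this)
  simp only [Nat.reduceAdd, Finset.sum_range_succ, Finset.range_one, Finset.sum_singleton,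
    Nat.factorial_zero, Nat.cast_one, inv_one, iteratedFDeriv_zero_apply,
    Nat.factorial_one, iteratedFDeriv_one_apply, pow_one, smul_eq_mul, one_mul] at htay
  have hcont : ContinuousOn (fun t : ℝ => (1 - t) * (iteratedFDeriv ℝ 2 f (z + t • v)) fun _ => v)
      (Set.uIcc 0 1) := by
    rw [Set.uIcc_of_le zero_le_one]
    intro t ht
    apply ContinuousAt.continuousWithinAt
    have hc : ContinuousAt (fun t : ℝ => iteratedFDeriv ℝ 2 f (z + t • v)) t := by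
      have h5 : ContinuousAt (iteratedFDeriv ℝ 2 f) (z + t • v) :=
        (hball _ (hmem t ht)).1.continuousAt_iteratedFDeriv (k := 2) le_rfl
      apply ContinuousAt.comp (f := fun t : ℝ => z + t • v) h5
      fun_prop
    have hc2 : ContinuousAt (fun t : ℝ => (iteratedFDeriv ℝ 2 f (z + t • v)) fun _ => v) t :=
      ((ContinuousMultilinearMap.apply ℝ (fun _ : Fin 2 => E) ℝ (fun _ => v)).continuous.continuousAt).comp hc
    exact (by fun_prop : ContinuousAt (fun t : ℝ => 1 - t) t).mul hc2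
  have hconst : ∫ t in (0 : ℝ)..1, (1 - t) * (iteratedFDeriv ℝ 2 f z) (fun _ => v)
      = 1 / 2 * (iteratedFDeriv ℝ 2 f z) (fun _ => v) := by
    rw [intervalIntegral.integral_mul_const]
    congr 1
    rw [intervalIntegral.integral_sub (by simp) (by simp)]
    simp
    norm_num
  have hB : (iteratedFDeriv ℝ 2 f z) (fun _ => v) = fderiv ℝ (fderiv ℝ f) z v v := by
    rw [iteratedFDeriv_two_apply]
  rw [← hB, ← hconst, htay]
  have : f z + fderiv ℝ f z v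
      + (∫ t in (0 : ℝ)..1, (1 - t) * (iteratedFDeriv ℝ 2 f (z + t • v)) fun _ => v) - f z
      - fderiv ℝ f z v - ∫ t in (0 : ℝ)..1, (1 - t) * (iteratedFDeriv ℝ 2 f z) (fun _ => v)
      = ∫ t in (0 : ℝ)..1, ((1 - t) * ((iteratedFDeriv ℝ 2 f (z + t • v)) fun _ => v)
        - (1 - t) * (iteratedFDeriv ℝ 2 f z) (fun _ => v)) := by
    rw [intervalIntegral.integral_sub hcont.intervalIntegrable
      (Continuous.intervalIntegrable (by fun_prop) _ _)]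
    ring
  rw [this]
  have hbd := intervalIntegral.norm_integral_le_of_norm_le_const (a := (0 : ℝ)) (b := 1)
    (C := ε * ‖v‖ ^ 2) (f := fun t => ((1 - t) * ((iteratedFDeriv ℝ 2 f (z + t • v)) fun _ => v)
        - (1 - t) * (iteratedFDeriv ℝ 2 f z) (fun _ => v))) ?_
  · simpa using hbd
  · intro t ht
    rw [Set.uIoc_of_le zero_le_one] at ht
    have ht' : t ∈ Set.Icc (0 : ℝ) 1 := ⟨ht.1.le, ht.2⟩
    have e : (1 - t) * ((iteratedFDeriv ℝ 2 f (z + t • v)) fun _ => v)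
        - (1 - t) * (iteratedFDeriv ℝ 2 f z) (fun _ => v)
        = (1 - t) * ((iteratedFDeriv ℝ 2 f (z + t • v) - iteratedFDeriv ℝ 2 f z) fun _ => v) := by
      rw [sub_apply]; ring
    rw [e, norm_mul]
    have h6 := (iteratedFDeriv ℝ 2 f (z + t • v) - iteratedFDeriv ℝ 2 f z).le_opNorm fun _ => v
    simp only [Finset.prod_const, Finset.card_univ, Fintype.card_fin] at h6
    have h7 := (hball _ (hmem t ht')).2
    have h8 : ‖(1 - t : ℝ)‖ ≤ 1 := by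
      rw [Real.norm_eq_abs, abs_of_nonneg (by linarith [ht.2])]
      linarith [ht.1]
    calc ‖(1 - t : ℝ)‖ * ‖(iteratedFDeriv ℝ 2 f (z + t • v) - iteratedFDeriv ℝ 2 f z) fun _ => v‖
        ≤ 1 * (‖iteratedFDeriv ℝ 2 f (z + t • v) - iteratedFDeriv ℝ 2 f z‖ * ‖v‖ ^ 2) := by
          gcongr
      _ ≤ ε * ‖v‖ ^ 2 := by
          rw [one_mul]; gcongr

lemma avg_im : Real.circleAverage (fun ζ : ℂ => ζ.im) 0 1 = 0 := by
  rw [Real.circleAverage_def]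
  have : ∀ θ : ℝ, (circleMap 0 1 θ).im = Real.sin θ := by
    intro θ
    simp [circleMap, Complex.exp_ofReal_mul_I_im]
  simp_rw [this]
  simp

lemma avg_re' : Real.circleAverage (fun ζ : ℂ => ζ.re) 0 1 = 0 := by
  rw [Real.circleAverage_def]
  have : ∀ θ : ℝ, (circleMap 0 1 θ).re = Real.cos θ := by
    intro θ
    simp [circleMap, Complex.exp_ofReal_mul_I_re]
  simp_rw [this]
  simp

lemma avg_im_sq : Real.circleAverage (fun ζ : ℂ => ζ.im ^ 2) 0 1 = 1 / 2 := by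
  rw [Real.circleAverage_def]
  have : ∀ θ : ℝ, (circleMap 0 1 θ).im ^ 2 = Real.sin θ ^ 2 := by
    intro θ
    simp [circleMap, Complex.exp_ofReal_mul_I_im]
  simp_rw [this]
  rw [integral_sin_sq]
  simp
  field_simp

lemma avg_re_im : Real.circleAverage (fun ζ : ℂ => ζ.re * ζ.im) 0 1 = 0 := by
  rw [Real.circleAverage_def]
  have : ∀ θ : ℝ, (circleMap 0 1 θ).re * (circleMap 0 1 θ).im = Real.sin θ * Real.cos θ := by
    intro θ
    simp [circleMap, Complex.exp_ofReal_mul_I_im, Complex.exp_ofReal_mul_I_re]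
    ring
  simp_rw [this]
  rw [integral_sin_mul_cos₁]
  simp

lemma avg_quad (a0 a1 a2 a3 a4 a5 : ℝ) :
    Real.circleAverage (fun ζ : ℂ => a0 + (a1 * ζ.re + (a2 * ζ.im + (a3 * ζ.re ^ 2
      + (a4 * (ζ.re * ζ.im) + a5 * ζ.im ^ 2))))) 0 1 = a0 + (a3 + a5) / 2 := by
  have c1 : ContinuousOn (fun ζ : ℂ => a1 * ζ.re) (Metric.sphere 0 1) := by fun_prop
  have c2 : ContinuousOn (fun ζ : ℂ => a2 * ζ.im) (Metric.sphere 0 1) := by fun_prop
  have c3 : ContinuousOn (fun ζ : ℂ => a3 * ζ.re ^ 2) (Metric.sphere 0 1) := by fun_prop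
  have c4 : ContinuousOn (fun ζ : ℂ => a4 * (ζ.re * ζ.im)) (Metric.sphere 0 1) := by fun_prop
  have c5 : ContinuousOn (fun ζ : ℂ => a5 * ζ.im ^ 2) (Metric.sphere 0 1) := by fun_prop
  have c45 : ContinuousOn (fun ζ : ℂ => a4 * (ζ.re * ζ.im) + a5 * ζ.im ^ 2)
    (Metric.sphere 0 1) := by fun_prop
  have c345 : ContinuousOn (fun ζ : ℂ => a3 * ζ.re ^ 2 + (a4 * (ζ.re * ζ.im) + a5 * ζ.im ^ 2))
    (Metric.sphere 0 1) := by fun_prop
  have c2345 : ContinuousOn (fun ζ : ℂ => a2 * ζ.im + (a3 * ζ.re ^ 2 + (a4 * (ζ.re * ζ.im)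
    + a5 * ζ.im ^ 2))) (Metric.sphere 0 1) := by fun_prop
  have c12345 : ContinuousOn (fun ζ : ℂ => a1 * ζ.re + (a2 * ζ.im + (a3 * ζ.re ^ 2
    + (a4 * (ζ.re * ζ.im) + a5 * ζ.im ^ 2)))) (Metric.sphere 0 1) := by fun_prop
  have c0 : ContinuousOn (fun _ : ℂ => a0) (Metric.sphere 0 1) := continuousOn_const
  rw [avg_add' c0 c12345, avg_add' c1 c2345, avg_add' c2 c345, avg_add' c3 c45, avg_add' c4 c5,
    avg_smul', avg_smul', avg_smul', avg_smul', avg_smul', Real.circleAverage_const, avg_re',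
    avg_im, avg_re_sq, avg_re_im, avg_im_sq]
  ring

/-- The Levi form of a `C²` psh function is nonnegative. -/
lemma levi_form_nonneg {U : Set (Cn n)} (hU : IsOpen U) {f : Cn n → ℝ}
    (hpsh : PSH U (fun z => (f z : EReal))) {z : Cn n} (hz : z ∈ U) (hf : ContDiffAt ℝ 2 f z)
    (hfc : ContinuousOn f U) (ξ : Cn n) :
    0 ≤ fderiv ℝ (fderiv ℝ f) z ξ ξ
      + fderiv ℝ (fderiv ℝ f) z (Complex.I • ξ) (Complex.I • ξ) := by
  set B := fderiv ℝ (fderiv ℝ f) z with hB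
  by_contra hcon
  push Not at hcon
  set S := B ξ ξ + B (Complex.I • ξ) (Complex.I • ξ) with hS
  -- choose ε
  obtain ⟨ε, hε, hεS⟩ : ∃ ε : ℝ, 0 < ε ∧ S / 4 + ε * ‖ξ‖ ^ 2 < 0 := by
    refine ⟨-S / (8 * (‖ξ‖ ^ 2 + 1)), by
      apply div_pos (by linarith) (by positivity), ?_⟩
    have h1 : -S / (8 * (‖ξ‖ ^ 2 + 1)) * ‖ξ‖ ^ 2 ≤ -S / (8 * (‖ξ‖ ^ 2 + 1)) * (‖ξ‖ ^ 2 + 1) := by
      apply mul_le_mul_of_nonneg_left (by linarith)
      apply div_nonneg (by linarith) (by positivity)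
    have h2 : -S / (8 * (‖ξ‖ ^ 2 + 1)) * (‖ξ‖ ^ 2 + 1) = -S / 8 := by
      field_simp
    linarith
  obtain ⟨δ, hδ, htay⟩ := taylor2 hf hε
  obtain ⟨r₀, hr₀, hdisc⟩ := exists_small_disc (hU.mem_nhds hz) ξ
  obtain ⟨r, hr, hrr₀, hrδ⟩ : ∃ r : ℝ, 0 < r ∧ r ≤ r₀ ∧ r * ‖ξ‖ < δ := by
    refine ⟨min r₀ (δ / (2 * (‖ξ‖ + 1))), lt_min hr₀ (by positivity), min_le_left _ _, ?_⟩
    have h1 : min r₀ (δ / (2 * (‖ξ‖ + 1))) * ‖ξ‖ ≤ δ / (2 * (‖ξ‖ + 1)) * (‖ξ‖ + 1) := by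
      apply mul_le_mul (min_le_right _ _) (by linarith) (norm_nonneg _) (by positivity)
    have h2 : δ / (2 * (‖ξ‖ + 1)) * (‖ξ‖ + 1) = δ / 2 := by field_simp
    linarith
  have hd := hdisc r hr.le hrr₀
  have hsub := hpsh.submean z ((r : ℂ) • ξ) hd (fun ζ => f (z + ζ • (r : ℂ) • ξ))
    (hd.continuousOn hfc) (fun ζ _ => le_rfl)
  rw [EReal.coe_le_coe_iff] at hsub
  have hmaj : ∀ ζ : ℂ, ‖ζ‖ = 1 → f (z + ζ • (r : ℂ) • ξ) ≤
      (f z + ε * (r * ‖ξ‖) ^ 2) + (r * fderiv ℝ f z ξ * ζ.re + (r * fderiv ℝ f z (Complex.I • ξ) * ζ.im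
        + (r ^ 2 / 2 * B ξ ξ * ζ.re ^ 2 + (r ^ 2 / 2 * (B ξ (Complex.I • ξ) + B (Complex.I • ξ) ξ)
          * (ζ.re * ζ.im) + r ^ 2 / 2 * B (Complex.I • ξ) (Complex.I • ξ) * ζ.im ^ 2)))) := by
    intro ζ hζ
    have hv : ζ • (r : ℂ) • ξ = (r * ζ.re) • ξ + (r * ζ.im) • (Complex.I • ξ) := by
      ext i
      simp only [Pi.smul_apply, Pi.add_apply, smul_eq_mul, Complex.real_smul, Complex.ofReal_mul]
      conv_lhs => rw [← Complex.re_add_im ζ]
      ring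
    have hn : ‖ζ • (r : ℂ) • ξ‖ = r * ‖ξ‖ := by
      rw [norm_smul, norm_smul, hζ]
      simp [abs_of_pos hr]
    have h1 := htay (ζ • (r : ℂ) • ξ) (by rw [hn]; exact hrδ)
    rw [hn] at h1
    have h2 := (abs_le.1 h1).2
    have h3 : fderiv ℝ f z (ζ • (r : ℂ) • ξ)
        = r * ζ.re * fderiv ℝ f z ξ + r * ζ.im * fderiv ℝ f z (Complex.I • ξ) := by
      rw [hv, map_add, map_smul, map_smul, smul_eq_mul, smul_eq_mul]
    have h4 : B (ζ • (r : ℂ) • ξ) (ζ • (r : ℂ) • ξ)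
        = (r * ζ.re) ^ 2 * B ξ ξ + (r * ζ.re) * (r * ζ.im) * (B ξ (Complex.I • ξ)
          + B (Complex.I • ξ) ξ) + (r * ζ.im) ^ 2 * B (Complex.I • ξ) (Complex.I • ξ) := by
      rw [hv]
      simp only [map_add, map_smul, add_apply, smul_apply, smul_eq_mul]
      ring
    rw [← hB, h3, h4] at h2
    linarith
  have hcq : ContinuousOn (fun ζ : ℂ => (f z + ε * (r * ‖ξ‖) ^ 2) + (r * fderiv ℝ f z ξ * ζ.re
      + (r * fderiv ℝ f z (Complex.I • ξ) * ζ.im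
        + (r ^ 2 / 2 * B ξ ξ * ζ.re ^ 2 + (r ^ 2 / 2 * (B ξ (Complex.I • ξ) + B (Complex.I • ξ) ξ)
          * (ζ.re * ζ.im) + r ^ 2 / 2 * B (Complex.I • ξ) (Complex.I • ξ) * ζ.im ^ 2)))))
      (Metric.sphere 0 1) := by fun_prop
  have hle := hsub.trans (avg_mono (hd.continuousOn hfc) hcq hmaj)
  rw [avg_quad] at hle
  have h5 : r ^ 2 * (S / 4 + ε * ‖ξ‖ ^ 2) < 0 := mul_neg_of_pos_of_neg (by positivity) hεS
  have h6 : (r ^ 2 / 2 * B ξ ξ + r ^ 2 / 2 * B (Complex.I • ξ) (Complex.I • ξ)) / 2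
      = r ^ 2 * (S / 4) := by rw [hS]; ring
  rw [h6] at hle
  nlinarith

end Pool.Agent.Cegrell
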