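import Mathlib
import Pool.Agent.Hhelper45.Cegrell.Psd
import Pool.Agent.Hhelper45.Cegrell.Calc2

open MeasureTheory Filter Topology Set

namespace Pool.Agent.Cegrell

variable {n : ℕ}

/-- real Hessian -/
noncomputable def hess (f : Cn n → ℝ) (z : Cn n) (v w : Cn n) : ℝ := fderiv ℝ (fderiv ℝ f) z v w

lemma hess_symm {f : Cn n → ℝ} {z : Cn n} (hf : ContDiffAt ℝ 2 f z) (v w : Cn n) :
    hess f z v w = hess f z w v := by
  have hs : IsSymmSndFDerivAt ℝ f z := by
    apply hf.isSymmSndFDerivAt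
    rw [minSmoothness_of_isRCLikeNormedField]
  exact hs.eq v w

lemma levi_formula {f : Cn n → ℝ} {z : Cn n} (hf : ContDiffAt ℝ 2 f z) (j k : Fin n) :
    levi f z j k = ((hess f z (Pi.single j 1) (Pi.single k 1)
        + hess f z (Pi.single j Complex.I) (Pi.single k Complex.I) : ℝ)
      + Complex.I * (hess f z (Pi.single j 1) (Pi.single k Complex.I)
        - hess f z (Pi.single j Complex.I) (Pi.single k 1) : ℝ)) / 4 := by
  have hev : ∀ᶠ y in 𝓝 z, ContDiffAt ℝ 2 f y := hf.eventually (by simp)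
  have h1 : ∀ᶠ y in 𝓝 z, dzbar k (fun w => (f w : ℂ)) y
      = ((fderiv ℝ f y (Pi.single k 1) : ℝ) + Complex.I * (fderiv ℝ f y (Pi.single k Complex.I) : ℝ)) / 2 := by
    filter_upwards [hev] with y hy
    have hd : DifferentiableAt ℝ f y := hy.differentiableAt (by simp)
    have : HasFDerivAt (fun w => (f w : ℂ)) (Complex.ofRealCLM.comp (fderiv ℝ f y)) y :=
      Complex.ofRealCLM.hasFDerivAt.comp y hd.hasFDerivAt
    unfold dzbar
    rw [this.fderiv]
    simp
  have hd2 : DifferentiableAt ℝ (fderiv ℝ f) z := by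
    have : ContDiffAt ℝ 1 (fderiv ℝ f) z := hf.fderiv_right (by norm_num)
    exact this.differentiableAt (by simp)
  have hH : ∀ a : Cn n, HasFDerivAt (fun y => fderiv ℝ f y a) ((fderiv ℝ (fderiv ℝ f) z).flip a) z := by
    intro a
    have := hd2.hasFDerivAt.clm_apply (hasFDerivAt_const a z)
    simpa using this
  have h2 : HasFDerivAt (dzbar k (fun w => (f w : ℂ)))
      ((2 : ℂ)⁻¹ • (Complex.ofRealCLM.comp ((fderiv ℝ (fderiv ℝ f) z).flip (Pi.single k 1))
        + Complex.I • Complex.ofRealCLM.comp ((fderiv ℝ (fderiv ℝ f) z).flip (Pi.single k Complex.I)))) z := by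
    have a1 : HasFDerivAt (fun y => ((fderiv ℝ f y (Pi.single k 1) : ℝ) : ℂ))
        (Complex.ofRealCLM.comp ((fderiv ℝ (fderiv ℝ f) z).flip (Pi.single k 1))) z :=
      Complex.ofRealCLM.hasFDerivAt.comp z (hH _)
    have a2 : HasFDerivAt (fun y => ((fderiv ℝ f y (Pi.single k Complex.I) : ℝ) : ℂ))
        (Complex.ofRealCLM.comp ((fderiv ℝ (fderiv ℝ f) z).flip (Pi.single k Complex.I))) z :=
      Complex.ofRealCLM.hasFDerivAt.comp z (hH _)
    have := (a1.add (a2.const_mul Complex.I)).const_mul ((2 : ℂ)⁻¹)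
    refine this.congr_of_eventuallyEq ?_
    filter_upwards [h1] with y hy
    rw [hy]
    simp only [Pi.add_apply]
    ring
  unfold levi
  rw [Matrix.of_apply]
  unfold dz
  rw [h2.fderiv]
  simp only [smul_apply, add_apply, ContinuousLinearMap.comp_apply,
    ContinuousLinearMap.flip_apply, Complex.ofRealCLM_apply, smul_eq_mul, hess, Complex.ofReal_add,
    Complex.ofReal_sub]
  linear_combination (-(1 / 4 : ℂ) * ((fderiv ℝ (fderiv ℝ f) z (Pi.single j Complex.I) (Pi.single k Complex.I) : ℝ) : ℂ)) * Complex.I_mul_I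

lemma quad_disc {P Q a b : ℝ} (h : ∀ x1 x2 y1 y2 : ℝ, 0 ≤ (x1 ^ 2 + x2 ^ 2) * P
    + (y1 ^ 2 + y2 ^ 2) * Q + 2 * ((x1 * y1 + x2 * y2) * a + (x1 * y2 - x2 * y1) * b)) :
    0 ≤ P ∧ 0 ≤ Q ∧ a ^ 2 + b ^ 2 ≤ P * Q := by
  have hP0 : 0 ≤ P := by have := h 1 0 0 0; nlinarith
  have hQ0 : 0 ≤ Q := by have := h 0 0 1 0; nlinarith
  refine ⟨hP0, hQ0, ?_⟩
  have ht : ∀ x : ℝ, 0 ≤ x ^ 2 * (a ^ 2 + b ^ 2) * P + Q + 2 * x * (a ^ 2 + b ^ 2) := by
    intro x
    have := h (x * a) (-(x * b)) 1 0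
    nlinarith
  by_cases hab : a ^ 2 + b ^ 2 = 0
  · rw [hab]; positivity
  · have hpos : 0 < a ^ 2 + b ^ 2 := lt_of_le_of_ne (by positivity) (Ne.symm hab)
    by_cases hP1 : P = 0
    · exfalso
      have := ht (-(Q + 1) / (a ^ 2 + b ^ 2))
      rw [hP1] at this
      have h2 : 2 * (-(Q + 1) / (a ^ 2 + b ^ 2)) * (a ^ 2 + b ^ 2) = -2 * (Q + 1) := by
        field_simp
      rw [h2] at this
      linarith
    · have hPp : 0 < P := lt_of_le_of_ne hP0 (Ne.symm hP1)
      have h3 := ht (-1 / P)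
      have h2 : (-1 / P) ^ 2 * (a ^ 2 + b ^ 2) * P + Q + 2 * (-1 / P) * (a ^ 2 + b ^ 2)
          = (P * Q - (a ^ 2 + b ^ 2)) / P := by
        field_simp
        ring
      rw [h2] at h3
      by_contra hcon
      push Not at hcon
      have : (P * Q - (a ^ 2 + b ^ 2)) / P < 0 := div_neg_of_neg_of_pos (by linarith) hPp
      linarith

/-- PSD data of the complex Hessian in dimension two -/
lemma levi_psd {U : Set (Cn 2)} (hU : IsOpen U) {f : Cn 2 → ℝ}
    (hpsh : PSH U (fun z => (f z : EReal))) {z : Cn 2} (hz : z ∈ U) (hf : ContDiffOn ℝ 2 f U) :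
    ∃ p q a b : ℝ, 0 ≤ p ∧ 0 ≤ q ∧ a ^ 2 + b ^ 2 ≤ p * q ∧ levi f z 0 0 = p ∧ levi f z 1 1 = q ∧
      levi f z 0 1 = a + b * Complex.I ∧ levi f z 1 0 = a - b * Complex.I := by
  have hfz : ContDiffAt ℝ 2 f z := hf.contDiffAt (hU.mem_nhds hz)
  have hsym := hess_symm hfz
  set e0 : Cn 2 := Pi.single 0 1 with he0
  set e1 : Cn 2 := Pi.single 1 1 with he1
  set i0 : Cn 2 := Pi.single 0 Complex.I with hi0
  set i1 : Cn 2 := Pi.single 1 Complex.I with hi1
  have hform : ∀ x1 x2 y1 y2 : ℝ, 0 ≤ (x1 ^ 2 + x2 ^ 2) * (hess f z e0 e0 + hess f z i0 i0)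
      + (y1 ^ 2 + y2 ^ 2) * (hess f z e1 e1 + hess f z i1 i1)
      + 2 * ((x1 * y1 + x2 * y2) * (hess f z e0 e1 + hess f z i0 i1)
        + (x1 * y2 - x2 * y1) * (hess f z e0 i1 - hess f z i0 e1)) := by
    intro x1 x2 y1 y2
    have h := levi_form_nonneg hU hpsh hz hfz hf.continuousOn (x1 • e0 + x2 • i0 + y1 • e1 + y2 • i1)
    have hI : Complex.I • (x1 • e0 + x2 • i0 + y1 • e1 + y2 • i1)
        = (-x2) • e0 + x1 • i0 + (-y2) • e1 + y1 • i1 := by
      ext i
      fin_cases i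
      · simp [he0, he1, hi0, hi1, Complex.ext_iff]
      · simp [he0, he1, hi0, hi1, Complex.ext_iff]
    rw [hI] at h
    change 0 ≤ hess f z (x1 • e0 + x2 • i0 + y1 • e1 + y2 • i1) (x1 • e0 + x2 • i0 + y1 • e1 + y2 • i1)
      + hess f z ((-x2) • e0 + x1 • i0 + (-y2) • e1 + y1 • i1)
        ((-x2) • e0 + x1 • i0 + (-y2) • e1 + y1 • i1) at h
    have hbil : ∀ a b c d : ℝ, hess f z (a • e0 + b • i0 + c • e1 + d • i1)
        (a • e0 + b • i0 + c • e1 + d • i1)
        = a ^ 2 * hess f z e0 e0 + b ^ 2 * hess f z i0 i0 + c ^ 2 * hess f z e1 e1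
          + d ^ 2 * hess f z i1 i1 + 2 * a * b * hess f z e0 i0 + 2 * a * c * hess f z e0 e1
          + 2 * a * d * hess f z e0 i1 + 2 * b * c * hess f z i0 e1 + 2 * b * d * hess f z i0 i1
          + 2 * c * d * hess f z e1 i1 := by
      intro a b c d
      have s1 := hsym i0 e0
      have s2 := hsym e1 e0
      have s3 := hsym i1 e0
      have s4 := hsym e1 i0
      have s5 := hsym i1 i0
      have s6 := hsym i1 e1
      unfold hess at s1 s2 s3 s4 s5 s6 ⊢
      simp only [map_add, map_smul, add_apply, smul_apply, smul_eq_mul, s1, s2, s3, s4, s5, s6]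
      ring
    rw [hbil, hbil] at h
    nlinarith [h]
  refine ⟨(hess f z e0 e0 + hess f z i0 i0) / 4, (hess f z e1 e1 + hess f z i1 i1) / 4,
    (hess f z e0 e1 + hess f z i0 i1) / 4, (hess f z e0 i1 - hess f z i0 e1) / 4, ?_, ?_, ?_,
    ?_, ?_, ?_, ?_⟩
  · exact div_nonneg (quad_disc hform).1 (by norm_num)
  · exact div_nonneg (quad_disc hform).2.1 (by norm_num)
  · have := (quad_disc hform).2.2
    nlinarith
  · rw [levi_formula hfz]
    simp only [← he0, ← hi0, hsym i0 e0]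
    push_cast
    ring
  · rw [levi_formula hfz]
    simp only [← he1, ← hi1, hsym i1 e1]
    push_cast
    ring
  · rw [levi_formula hfz]
    simp only [← he0, ← hi0, ← he1, ← hi1]
    push_cast
    ring
  · rw [levi_formula hfz]
    simp only [← he0, ← hi0, ← he1, ← hi1, hsym e1 e0, hsym i1 i0, hsym e1 i0, hsym i1 e0]
    push_cast
    ring

end Pool.Agent.Cegrell
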