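import Mathlib
import Pool.Agent.Hhelper45.Cegrell.Psd2

open MeasureTheory Filter Topology Set

namespace Pool.Agent.Cegrell

variable {n : ℕ}

lemma exists_cutoff {K U : Set (Cn n)} (hK : IsCompact K) (hU : IsOpen U) (hKU : K ⊆ U) :
    ∃ η : Cn n → ℝ, ContDiff ℝ (⊤ : ℕ∞) η ∧ HasCompactSupport η ∧ tsupport η ⊆ U ∧
      (∀ z ∈ K, ∀ᶠ y in 𝓝 z, η y = 1) ∧ (∀ z, 0 ≤ η z) ∧ ∀ z, η z ≤ 1 := by
  obtain ⟨L, hL, hKL, hLU⟩ := exists_compact_between hK hU hKU
  obtain ⟨f, hf1, hf0, hf⟩ := exists_contMDiffMap_one_nhds_of_subset_interior (n := (⊤ : ℕ∞))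
    (modelWithCornersSelf ℝ (Cn n)) hK.isClosed hKL
  have hts : tsupport (f : Cn n → ℝ) ⊆ L := by
    apply closure_minimal _ hL.isClosed
    intro z hz
    by_contra hcon
    exact hz (hf0 z hcon)
  refine ⟨f, f.contMDiff.contDiff, ?_, hts.trans hLU, ?_, fun z => (hf z).1, fun z => (hf z).2⟩
  · exact hL.of_isClosed_subset (isClosed_tsupport _) hts
  · intro z hz
    exact (eventually_nhdsSet_iff_forall.1 hf1) z hz

lemma contDiff_cutoff_mul {U : Set (Cn n)} (hU : IsOpen U) {η f : Cn n → ℝ}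
    (hη : ContDiff ℝ (⊤ : ℕ∞) η) (hs : tsupport η ⊆ U) (hf : ContDiffOn ℝ (⊤ : ℕ∞) f U) :
    ContDiff ℝ (⊤ : ℕ∞) fun z => η z * f z := by
  rw [contDiff_iff_contDiffAt]
  intro z
  by_cases hz : z ∈ U
  · exact hη.contDiffAt.mul (hf.contDiffAt (hU.mem_nhds hz))
  · have hz' : z ∈ (tsupport η)ᶜ := fun h => hz (hs h)
    have : (fun y => η y * f y) =ᶠ[𝓝 z] fun _ => 0 := by
      filter_upwards [(isClosed_tsupport η).isOpen_compl.mem_nhds hz'] with y hy
      rw [image_eq_zero_of_notMem_tsupport hy, zero_mul]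
    exact contDiffAt_const.congr_of_eventuallyEq this

lemma op_congr {g h : Cn n → ℂ} {z : Cn n} (hgh : g =ᶠ[𝓝 z] h) (c : ℂ) (v w : Cn n) :
    op c v w g =ᶠ[𝓝 z] op c v w h := by
  filter_upwards [hgh.eventuallyEq_nhds] with y hy
  unfold op
  rw [hy.fderiv_eq]

lemma hessc_congr {g h : Cn n → ℂ} {z : Cn n} (hgh : g =ᶠ[𝓝 z] h) (j k : Fin n) :
    dz j (dzbar k g) z = dz j (dzbar k h) z := by
  simp only [dz_eq, dzbar_eq]
  exact (op_congr (op_congr hgh _ _ _) _ _ _).self_of_nhds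

lemma SM.ofReal {f : Cn n → ℝ} (hf : ContDiff ℝ (⊤ : ℕ∞) f) : SM fun z => (f z : ℂ) :=
  Complex.ofRealCLM.contDiff.comp hf

lemma hcs_ofReal {f : Cn n → ℝ} (hf : HasCompactSupport f) :
    HasCompactSupport fun z => (f z : ℂ) :=
  hf.comp_left (g := fun x : ℝ => (x : ℂ)) (by simp)

lemma tsupport_ofReal {f : Cn n → ℝ} : tsupport (fun z => (f z : ℂ)) = tsupport f := by
  unfold tsupport Function.support
  congr 1
  ext z
  simp

lemma ibp2 {Y H : Cn n → ℂ} (hY : SM Y) (hH : SM H) (hc : HasCompactSupport Y) (j k : Fin n) :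
    ∫ z, dz j (dzbar k H) z * Y z = ∫ z, H z * dz j (dzbar k Y) z := by
  rw [dz_parts hY (hH.dzbar k) hc, dzbar_parts (hY.dz j) hH (hcs_dz hc j), neg_neg,
    dzbar_dz hY]

lemma Mx_sub_add {a b : Cn 2 → ℂ} (ha : SM a) (hb : SM b) (z : Cn 2) :
    Mx (fun y => a y - b y) (fun y => a y + b y) z = Mx a a z - Mx b b z := by
  have h1 : ∀ j k, dz j (dzbar k fun y => a y - b y) z = dz j (dzbar k a) z - dz j (dzbar k b) z := by
    intro j k
    rw [dzbar_sub ha hb, dz_sub (ha.dzbar k) (hb.dzbar k)]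
  have h2 : ∀ j k, dz j (dzbar k fun y => a y + b y) z = dz j (dzbar k a) z + dz j (dzbar k b) z := by
    intro j k
    rw [dzbar_add ha hb, dz_add (ha.dzbar k) (hb.dzbar k)]
  simp only [Mx, h1, h2]
  ring

lemma maDensity_eq (f : Cn 2 → ℝ) (z : Cn 2) :
    maDensity f z = 16 * (Mx (fun w => (f w : ℂ)) (fun w => (f w : ℂ)) z).re := by
  have h2 : (Mx (fun w => (f w : ℂ)) (fun w => (f w : ℂ)) z) = 2 * (levi f z).det := by
    rw [Matrix.det_fin_two]
    unfold levi Mx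
    simp only [Matrix.of_apply]
    ring
  rw [h2]
  unfold maDensity
  simp [Nat.factorial]
  ring

/-- uniform bound of the complex Hessian of a test function -/
lemma hess_bdd {X : Cn 2 → ℂ} (hX : SM X) (hc : HasCompactSupport X) :
    ∃ M : ℝ, 0 ≤ M ∧ ∀ j k z, ‖dz j (dzbar k X) z‖ ≤ M := by
  have h : ∀ j k, ∃ C, ∀ z, ‖dz j (dzbar k X) z‖ ≤ C := fun j k =>
    (hcs_dz (hcs_dzbar hc k) j).exists_bound_of_continuous (ContDiff.continuous ((hX.dzbar k).dz j))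
  choose C hC using h
  refine ⟨|C 0 0| + |C 0 1| + |C 1 0| + |C 1 1|, by positivity, fun j k z => ?_⟩
  have h1 := (hC j k z).trans (le_abs_self _)
  have := abs_nonneg (C 0 0)
  have := abs_nonneg (C 0 1)
  have := abs_nonneg (C 1 0)
  have := abs_nonneg (C 1 1)
  fin_cases j <;> fin_cases k <;> simp at h1 ⊢ <;> linarith

end Pool.Agent.Cegrell
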