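import Mathlib
import Pool.Agent.Hhelper45.Cegrell.BT

open MeasureTheory Filter Topology Set

namespace Pool.Agent.Cegrell

lemma psd_norm {p q a b : ℝ} (hp : 0 ≤ p) (hq : 0 ≤ q) (h : a ^ 2 + b ^ 2 ≤ p * q) :
    ‖((a : ℂ) + b * Complex.I)‖ ≤ p + q ∧ ‖((a : ℂ) - b * Complex.I)‖ ≤ p + q := by
  have h1 : (p + q) ^ 2 ≥ a ^ 2 + b ^ 2 := by nlinarith
  constructor
  · apply abs_le_of_sq_le_sq' _ (by linarith) |>.2
    rw [← Complex.normSq_eq_norm_sq, Complex.normSq_apply]
    simp
    nlinarith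
  · apply abs_le_of_sq_le_sq' _ (by linarith) |>.2
    rw [← Complex.normSq_eq_norm_sq, Complex.normSq_apply]
    simp
    nlinarith

theorem bt_conv {U : Set (Cn 2)} (hU : IsOpen U) {f : ℕ → Cn 2 → ℝ} {g : Cn 2 → ℝ}
    (hf : ∀ k, ContDiffOn ℝ (⊤ : ℕ∞) (f k) U) (hg : ContDiffOn ℝ (⊤ : ℕ∞) g U)
    (pf : ∀ k, PSH U (fun z => (f k z : EReal))) (pg : PSH U (fun z => (g z : EReal)))
    (anti : ∀ z ∈ U, Antitone fun k => f k z)
    (lim : ∀ z ∈ U, Tendsto (fun k => f k z) atTop (𝓝 (g z)))
    {χ : Cn 2 → ℝ} (hχ : ContDiff ℝ (⊤ : ℕ∞) χ) (hc : HasCompactSupport χ)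
    (hs : tsupport χ ⊆ U) :
    Tendsto (fun k => ∫ z, χ z * maDensity (f k) z) atTop (𝓝 (∫ z, χ z * maDensity g z)) := by
  have h2top : ((2 : ℕ∞) : WithTop ℕ∞) ≤ ((⊤ : ℕ∞) : WithTop ℕ∞) := WithTop.coe_le_coe.2 le_top
  have hf2 : ∀ k, ContDiffOn ℝ 2 (f k) U := fun k => (hf k).of_le h2top
  have hg2 : ContDiffOn ℝ 2 g U := hg.of_le h2top
  obtain ⟨η₂, sη₂, cη₂, tη₂, oη₂, nη₂, -⟩ := exists_cutoff hc hU hs
  obtain ⟨η, sη, cη, tη, oη, nη, -⟩ := exists_cutoff (K := tsupport η₂) cη₂ hU tη₂
  set K := tsupport χ with hK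
  set K₂ := tsupport η₂ with hK₂
  have hKK₂ : K ⊆ K₂ := by
    intro z hz
    apply subset_tsupport
    have := (oη₂ z hz).self_of_nhds
    rw [Function.mem_support, this]
    exact one_ne_zero
  have hKc : IsCompact K := hc
  have hK₂c : IsCompact K₂ := cη₂
  set F : ℕ → Cn 2 → ℂ := fun k z => ((η z * f k z : ℝ) : ℂ) with hF
  set G : Cn 2 → ℂ := fun z => ((η z * g z : ℝ) : ℂ) with hG
  have sF : ∀ k, SM (F k) := fun k => SM.ofReal (contDiff_cutoff_mul hU sη tη (hf k))
  have sG : SM G := SM.ofReal (contDiff_cutoff_mul hU sη tη hg)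
  have gF : ∀ k, ∀ z ∈ K₂, F k =ᶠ[𝓝 z] fun w => (f k w : ℂ) := by
    intro k z hz
    filter_upwards [oη z hz] with y hy
    simp [hF, hy]
  have gG : ∀ z ∈ K₂, G =ᶠ[𝓝 z] fun w => (g w : ℂ) := by
    intro z hz
    filter_upwards [oη z hz] with y hy
    simp [hG, hy]
  set X : Cn 2 → ℂ := fun z => (χ z : ℂ) with hX
  set Y : Cn 2 → ℂ := fun z => (η₂ z : ℂ) with hY
  have sX : SM X := SM.ofReal hχ
  have sY : SM Y := SM.ofReal sη₂
  have cX : HasCompactSupport X := hcs_ofReal hc
  have cY : HasCompactSupport Y := hcs_ofReal cη₂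
  obtain ⟨M, hM0, hM⟩ := hess_bdd sX cX
  set H : ℕ → Cn 2 → ℂ := fun k z => F k z + G z with hH
  set D : ℕ → Cn 2 → ℂ := fun k z => F k z - G z with hD
  have sH : ∀ k, SM (H k) := fun k => (sF k).add sG
  have sD : ∀ k, SM (D k) := fun k => (sF k).sub sG
  -- positivity data
  set T : ℕ → Cn 2 → ℝ := fun k z => (dz 0 (dzbar 0 (H k)) z + dz 1 (dzbar 1 (H k)) z).re with hT
  have hA : ∀ k, ∀ z ∈ K₂, ∀ j l, ‖dz j (dzbar l (H k)) z‖ ≤ T k z := by
    intro k z hz
    have hzU : z ∈ U := tη₂ hz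
    have hl : ∀ j l, dz j (dzbar l (H k)) z = levi (f k) z j l + levi g z j l := by
      intro j l
      have h1 : dz j (dzbar l (H k)) z = dz j (dzbar l (F k)) z + dz j (dzbar l G) z := by
        rw [hH]
        simp only
        rw [dzbar_add (sF k) sG, dz_add ((sF k).dzbar l) (sG.dzbar l)]
      rw [h1, hessc_congr (gF k z hz), hessc_congr (gG z hz)]
      rfl
    obtain ⟨p, q, a, b, hp, hq, hab, h00, h11, h01, h10⟩ := levi_psd hU (pf k) hzU (hf2 k)
    obtain ⟨p', q', a', b', hp', hq', hab', h00', h11', h01', h10'⟩ := levi_psd hU pg hzU hg2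
    have hTz : T k z = (p + p') + (q + q') := by
      simp only [hT, hl, h00, h11, h00', h11']
      simp
    obtain ⟨n1, n2⟩ := psd_norm hp hq hab
    obtain ⟨n1', n2'⟩ := psd_norm hp' hq' hab'
    intro j l
    rw [hTz, hl]
    fin_cases j <;> fin_cases l
    · simp only [Fin.zero_eta, Fin.isValue, h00, h00']
      rw [← Complex.ofReal_add, Complex.norm_real, Real.norm_eq_abs, abs_of_nonneg (by linarith)]
      linarith
    · simp only [Fin.zero_eta, Fin.mk_one, Fin.isValue, h01, h01']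
      exact (norm_add_le _ _).trans (by linarith)
    · simp only [Fin.zero_eta, Fin.mk_one, Fin.isValue, h10, h10']
      exact (norm_add_le _ _).trans (by linarith)
    · simp only [Fin.mk_one, Fin.isValue, h11, h11']
      rw [← Complex.ofReal_add, Complex.norm_real, Real.norm_eq_abs, abs_of_nonneg (by linarith)]
      linarith
  have hT0 : ∀ k, ∀ z ∈ K₂, 0 ≤ T k z := fun k z hz => (norm_nonneg _).trans (hA k z hz 0 0)
  -- the Hessian of `X` vanishes outside `K`
  have hX0 : ∀ z ∉ K, ∀ j l, dz j (dzbar l X) z = 0 := by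
    intro z hz j l
    apply image_eq_zero_of_notMem_tsupport
    intro h
    apply hz
    have := dzbar_support l (dz_support j h)
    rwa [hX, tsupport_ofReal] at this
  have hY0 : ∀ z ∉ K₂, ∀ j l, dz j (dzbar l Y) z = 0 := by
    intro z hz j l
    apply image_eq_zero_of_notMem_tsupport
    intro h
    apply hz
    have := dzbar_support l (dz_support j h)
    rwa [hY, tsupport_ofReal] at this
  -- (1) integral identity
  have hint : ∀ a b : Cn 2 → ℂ, SM a → SM b → Integrable fun z => X z * Mx a b z := by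
    intro a b ha hb
    have sM : SM (Mx a b) := by
      have e : Mx a b = fun z => dz 0 (dzbar 0 a) z * dz 1 (dzbar 1 b) z
        + dz 1 (dzbar 1 a) z * dz 0 (dzbar 0 b) z
        - dz 0 (dzbar 1 a) z * dz 1 (dzbar 0 b) z - dz 1 (dzbar 0 a) z * dz 0 (dzbar 1 b) z := by
        funext z; rfl
      rw [e]
      exact (((((ha.dzbar 0).dz 0).mul ((hb.dzbar 1).dz 1)).add
        (((ha.dzbar 1).dz 1).mul ((hb.dzbar 0).dz 0))).sub
        (((ha.dzbar 1).dz 0).mul ((hb.dzbar 0).dz 1))).sub
        (((ha.dzbar 0).dz 1).mul ((hb.dzbar 1).dz 0))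
    exact (sX.mul sM).integrable cX.mul_right
  have hdens : ∀ (u : Cn 2 → ℝ) (E : Cn 2 → ℂ), (∀ z ∈ K₂, E =ᶠ[𝓝 z] fun w => (u w : ℂ)) →
      ∀ z, χ z * maDensity u z = 16 * (X z * Mx E E z).re := by
    intro u E hE z
    by_cases hz : z ∈ K
    · have hz2 := hKK₂ hz
      rw [maDensity_eq]
      have : Mx E E z = Mx (fun w => (u w : ℂ)) (fun w => (u w : ℂ)) z := by
        simp only [Mx, hessc_congr (hE z hz2)]
      rw [this, hX]
      simp only [Complex.re_ofReal_mul]
      ring
    · have : χ z = 0 := image_eq_zero_of_notMem_tsupport hz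
      simp [hX, this]
  have hre : ∀ (a b : Cn 2 → ℂ), SM a → SM b → ∫ z, 16 * (X z * Mx a b z).re
      = 16 * (∫ z, X z * Mx a b z).re := by
    intro a b ha hb
    rw [integral_const_mul]
    congr 1
    exact Complex.reCLM.integral_comp_comm (hint a b ha hb)
  have hdiff : ∀ k, (∫ z, χ z * maDensity (f k) z) - ∫ z, χ z * maDensity g z
      = 16 * (∫ z, D k z * Mx X (H k) z).re := by
    intro k
    simp_rw [hdens (f k) (F k) (gF k), hdens g G gG]
    rw [hre _ _ (sF k) (sF k), hre _ _ sG sG, ← mul_sub, ← Complex.sub_re,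
      ← integral_sub (hint _ _ (sF k) (sF k)) (hint _ _ sG sG), ← Mx_parts sX (sD k) (sH k) cX]
    congr 3
    funext z
    rw [hD, hH]
    simp only
    rw [Mx_sub_add (sF k) sG]
    ring
  -- (3) the trace bound
  have hHb : ∃ C : ℝ, 0 ≤ C ∧ ∀ k, ∀ z ∈ K₂, ‖H k z‖ ≤ C := by
    have c0 : ContinuousOn (fun z => |f 0 z| + 2 * |g z|) K₂ :=
      (((hf 0).continuousOn.mono tη₂).abs).add
        (continuousOn_const.mul ((hg.continuousOn.mono tη₂).abs))
    obtain ⟨C, hC⟩ := hK₂c.exists_bound_of_continuousOn c0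
    refine ⟨|C|, abs_nonneg _, fun k z hz => ?_⟩
    have hzU : z ∈ U := tη₂ hz
    have h1 := (hC z hz).trans (le_abs_self C)
    have e1 : H k z = ((f k z + g z : ℝ) : ℂ) := by
      have := (oη z hz).self_of_nhds
      simp [hH, hF, hG, this]
    have h3 : g z ≤ f k z := (anti z hzU).le_of_tendsto (lim z hzU) k
    have h4 : f k z ≤ f 0 z := anti z hzU (Nat.zero_le k)
    rw [e1, Complex.norm_real]
    rw [Real.norm_eq_abs] at h1 ⊢
    have h5 : |f 0 z| + 2 * |g z| ≤ |C| := (le_abs_self _).trans h1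
    refine le_trans ?_ h5
    rw [abs_le]
    have h6 := neg_abs_le (g z)
    have h7 := le_abs_self (g z)
    have h8 := le_abs_self (f 0 z)
    have h9 := abs_nonneg (f 0 z)
    constructor <;> linarith
  obtain ⟨C, hC0, hC⟩ := hHb
  have sLY : SM fun z => dz 0 (dzbar 0 Y) z + dz 1 (dzbar 1 Y) z :=
    ((sY.dzbar 0).dz 0).add ((sY.dzbar 1).dz 1)
  have iLY : Integrable fun z => dz 0 (dzbar 0 Y) z + dz 1 (dzbar 1 Y) z :=
    ((((sY.dzbar 0).dz 0).integrable (hcs_dz (hcs_dzbar cY 0) 0)).add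
      (((sY.dzbar 1).dz 1).integrable (hcs_dz (hcs_dzbar cY 1) 1)))
  set S : ℝ := C * ∫ z, ‖dz 0 (dzbar 0 Y) z + dz 1 (dzbar 1 Y) z‖ with hS
  have hS0 : 0 ≤ S := mul_nonneg hC0 (integral_nonneg fun _ => norm_nonneg _)
  have hTint : ∀ k, ∫ z, η₂ z * T k z ≤ S := by
    intro k
    have i0 : Integrable fun z => dz 0 (dzbar 0 (H k)) z * Y z :=
      ((((sH k).dzbar 0).dz 0).mul sY).integrable cY.mul_left
    have i1 : Integrable fun z => dz 1 (dzbar 1 (H k)) z * Y z :=
      ((((sH k).dzbar 1).dz 1).mul sY).integrable cY.mul_left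
    have i01 : Integrable fun z => dz 0 (dzbar 0 (H k)) z * Y z + dz 1 (dzbar 1 (H k)) z * Y z :=
      i0.add i1
    have j0 : Integrable fun z => H k z * dz 0 (dzbar 0 Y) z :=
      ((sH k).mul ((sY.dzbar 0).dz 0)).integrable (hcs_dz (hcs_dzbar cY 0) 0).mul_left
    have j1 : Integrable fun z => H k z * dz 1 (dzbar 1 Y) z :=
      ((sH k).mul ((sY.dzbar 1).dz 1)).integrable (hcs_dz (hcs_dzbar cY 1) 1).mul_left
    have e1 : ∫ z, η₂ z * T k z
        = (∫ z, (dz 0 (dzbar 0 (H k)) z * Y z + dz 1 (dzbar 1 (H k)) z * Y z)).re := by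
      have h1 : ∫ z, Complex.reCLM (dz 0 (dzbar 0 (H k)) z * Y z + dz 1 (dzbar 1 (H k)) z * Y z)
          = Complex.reCLM (∫ z, (dz 0 (dzbar 0 (H k)) z * Y z + dz 1 (dzbar 1 (H k)) z * Y z)) :=
        Complex.reCLM.integral_comp_comm i01
      rw [← Complex.reCLM_apply, ← h1]
      apply integral_congr_ae
      filter_upwards with z
      simp [hT, hY]
      ring
    have e2 : (∫ z, (dz 0 (dzbar 0 (H k)) z * Y z + dz 1 (dzbar 1 (H k)) z * Y z))
        = ∫ z, H k z * (dz 0 (dzbar 0 Y) z + dz 1 (dzbar 1 Y) z) := by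
      rw [integral_add i0 i1, ibp2 sY (sH k) cY, ibp2 sY (sH k) cY, ← integral_add j0 j1]
      apply integral_congr_ae
      filter_upwards with z
      ring
    rw [e1, e2]
    refine (Complex.re_le_norm _).trans ((norm_integral_le_integral_norm _).trans ?_)
    rw [hS, ← integral_const_mul]
    apply integral_mono
    · refine Integrable.norm ?_
      refine (j0.add j1).congr ?_
      filter_upwards with z
      simp only [Pi.add_apply]
      ring
    · exact iLY.norm.const_mul _
    · intro z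
      simp only
      rw [norm_mul]
      by_cases hz : z ∈ K₂
      · exact mul_le_mul_of_nonneg_right (hC k z hz) (norm_nonneg _)
      · rw [hY0 z hz 0 0, hY0 z hz 1 1]; simp
  -- (2) the main estimate
  have hmain : ∀ k (ε : ℝ), 0 ≤ ε → (∀ z ∈ K₂, |f k z - g z| ≤ ε) →
      |(∫ z, χ z * maDensity (f k) z) - ∫ z, χ z * maDensity g z| ≤ 64 * M * S * ε := by
    intro k ε hε hclose
    rw [hdiff, abs_mul, abs_of_pos (by norm_num : (0 : ℝ) < 16)]
    have h1 : |(∫ z, D k z * Mx X (H k) z).re| ≤ ∫ z, 4 * M * ε * (η₂ z * T k z) := by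
      refine (Complex.abs_re_le_norm _).trans ((norm_integral_le_integral_norm _).trans ?_)
      apply integral_mono_of_nonneg
      · filter_upwards with z using norm_nonneg _
      · apply Integrable.const_mul
        have i01 : Integrable fun z => (dz 0 (dzbar 0 (H k)) z * Y z
            + dz 1 (dzbar 1 (H k)) z * Y z) :=
          (((((sH k).dzbar 0).dz 0).mul sY).integrable cY.mul_left).add
            (((((sH k).dzbar 1).dz 1).mul sY).integrable cY.mul_left)
        refine (Complex.reCLM.integrable_comp i01).congr ?_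
        filter_upwards with z
        simp [hT, hY]
        ring
      · filter_upwards with z
        rw [norm_mul]
        by_cases hz : z ∈ K
        · have hz2 := hKK₂ hz
          have hη₂ : η₂ z = 1 := (oη₂ z hz).self_of_nhds
          have hDz : ‖D k z‖ ≤ ε := by
            have e1 : D k z = ((f k z - g z : ℝ) : ℂ) := by
              have := (oη z hz2).self_of_nhds
              simp [hD, hF, hG, this]
            rw [e1, Complex.norm_real, Real.norm_eq_abs]
            exact hclose z hz2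
          have hT0z := hT0 k z hz2
          have hMx : ‖Mx X (H k) z‖ ≤ 4 * M * T k z := by
            unfold Mx
            have b : ∀ j l j' l', ‖dz j (dzbar l X) z * dz j' (dzbar l' (H k)) z‖ ≤ M * T k z := by
              intro j l j' l'
              rw [norm_mul]
              exact mul_le_mul (hM j l z) (hA k z hz2 j' l') (norm_nonneg _) hM0
            refine (norm_sub_le _ _).trans ?_
            refine (add_le_add (norm_sub_le _ _) le_rfl).trans ?_
            refine (add_le_add (add_le_add (norm_add_le _ _) le_rfl) le_rfl).trans ?_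
            have b1 := b 0 0 1 1
            have b2 := b 1 1 0 0
            have b3 := b 0 1 1 0
            have b4 := b 1 0 0 1
            linarith
          rw [hη₂, one_mul]
          calc ‖D k z‖ * ‖Mx X (H k) z‖ ≤ ε * (4 * M * T k z) :=
                mul_le_mul hDz hMx (norm_nonneg _) hε
            _ = 4 * M * ε * T k z := by ring
        · have h0 : Mx X (H k) z = 0 := by
            unfold Mx
            simp [hX0 z hz]
          rw [h0, norm_zero, mul_zero]
          apply mul_nonneg (by positivity)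
          by_cases hz2 : z ∈ K₂
          · exact mul_nonneg (nη₂ z) (hT0 k z hz2)
          · rw [image_eq_zero_of_notMem_tsupport hz2, zero_mul]
    have h2 : ∫ z, 4 * M * ε * (η₂ z * T k z) ≤ 4 * M * ε * S := by
      rw [integral_const_mul]
      exact mul_le_mul_of_nonneg_left (hTint k) (by positivity)
    nlinarith
  -- Dini
  have hdini : TendstoUniformlyOn f g atTop K₂ := by
    apply Antitone.tendstoUniformlyOn_of_forall_tendsto hK₂c
    · intro k
      exact (hf k).continuousOn.mono tη₂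
    · intro z hz
      exact anti z (tη₂ hz)
    · exact hg.continuousOn.mono tη₂
    · intro z hz
      exact lim z (tη₂ hz)
  rw [Metric.tendstoUniformlyOn_iff] at hdini
  rw [Metric.tendsto_atTop]
  intro ε' hε'
  have hpos : 0 < ε' / (64 * M * S + 1) := by positivity
  obtain ⟨N, hN⟩ := eventually_atTop.1 (hdini _ hpos)
  refine ⟨N, fun k hk => ?_⟩
  rw [Real.dist_eq]
  have h1 := hmain k (ε' / (64 * M * S + 1)) hpos.le (fun z hz => by
    have := hN k hk z hz
    rw [Real.dist_eq, abs_sub_comm] at this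
    exact this.le)
  refine lt_of_le_of_lt h1 ?_
  rw [mul_div_assoc', div_lt_iff₀ (by positivity)]
  nlinarith

end Pool.Agent.Cegrell
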