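import Mathlib
import Pool.Agent.Hhelper45.Cegrell.BT2

open MeasureTheory Filter Topology Set

namespace Pool.Agent.Cegrell

lemma PSH.mono {n : ℕ} {Ω U : Set (Cn n)} {u : Cn n → EReal} (h : PSH Ω u) (hU : U ⊆ Ω) :
    PSH U u where
  usc := h.usc.mono hU
  lt_top := fun z hz => h.lt_top z (hU hz)
  submean := fun z ξ hd g hg hle => h.submean z ξ (fun ζ hζ => hU (hd ζ hζ)) g hg hle

lemma maDensity_congr {f g : Cn 2 → ℝ} {z : Cn 2} (h : f =ᶠ[𝓝 z] g) :
    maDensity f z = maDensity g z := by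
  have h1 : (fun w => (f w : ℂ)) =ᶠ[𝓝 z] fun w => (g w : ℂ) := by
    filter_upwards [h] with y hy
    rw [hy]
  rw [maDensity_eq, maDensity_eq]
  simp only [Mx, hessc_congr h1]

lemma hess_cont {V : Set (Cn 2)} (hV : IsOpen V) {f : Cn 2 → ℝ} (hf : ContDiffOn ℝ 2 f V)
    (v w : Cn 2) : ContinuousOn (fun z => hess f z v w) V := by
  have h1 : ContDiffOn ℝ 1 (fderiv ℝ f) V := hf.fderiv_of_isOpen hV (by norm_num)
  have h2 : ContinuousOn (fderiv ℝ (fderiv ℝ f)) V := h1.continuousOn_fderiv_of_isOpen hV (by simp)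
  exact (h2.clm_apply continuousOn_const).clm_apply continuousOn_const

lemma levi_cont {V : Set (Cn 2)} (hV : IsOpen V) {f : Cn 2 → ℝ} (hf : ContDiffOn ℝ 2 f V)
    (j k : Fin 2) : ContinuousOn (fun z => levi f z j k) V := by
  have h1 := hess_cont hV hf
  have h2 : ContinuousOn (fun z => ((hess f z (Pi.single j 1) (Pi.single k 1)
        + hess f z (Pi.single j Complex.I) (Pi.single k Complex.I) : ℝ)
      + Complex.I * (hess f z (Pi.single j 1) (Pi.single k Complex.I)
        - hess f z (Pi.single j Complex.I) (Pi.single k 1) : ℝ)) / 4) V := by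
    have a1 := Complex.continuous_ofReal.comp_continuousOn
      ((h1 (Pi.single j 1) (Pi.single k 1)).add (h1 (Pi.single j Complex.I) (Pi.single k Complex.I)))
    have a2 := Complex.continuous_ofReal.comp_continuousOn
      ((h1 (Pi.single j 1) (Pi.single k Complex.I)).sub (h1 (Pi.single j Complex.I) (Pi.single k 1)))
    exact (a1.add (continuousOn_const.mul a2)).div_const 4
  refine h2.congr fun z hz => ?_
  exact levi_formula (hf.contDiffAt (hV.mem_nhds hz)) j k

lemma maDensity_eq' (f : Cn 2 → ℝ) (z : Cn 2) :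
    maDensity f z = 32 * (levi f z 0 0 * levi f z 1 1 - levi f z 0 1 * levi f z 1 0).re := by
  unfold maDensity
  rw [Matrix.det_fin_two]
  have : (4 : ℝ) ^ 2 * (Nat.factorial 2 : ℝ) = 32 := by norm_num [Nat.factorial]
  rw [this]

lemma maDensity_cont {V : Set (Cn 2)} (hV : IsOpen V) {f : Cn 2 → ℝ} (hf : ContDiffOn ℝ 2 f V) :
    ContinuousOn (maDensity f) V := by
  have h := levi_cont hV hf
  have e : maDensity f = fun z => 32 * (levi f z 0 0 * levi f z 1 1
      - levi f z 0 1 * levi f z 1 0).re := by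
    funext z; exact maDensity_eq' f z
  rw [e]
  exact continuousOn_const.mul (Complex.continuous_re.comp_continuousOn
    (((h 0 0).mul (h 1 1)).sub ((h 0 1).mul (h 1 0))))

lemma maDensity_nonneg {U : Set (Cn 2)} (hU : IsOpen U) {f : Cn 2 → ℝ}
    (hpsh : PSH U (fun z => (f z : EReal))) {z : Cn 2} (hz : z ∈ U) (hf : ContDiffOn ℝ 2 f U) :
    0 ≤ maDensity f z := by
  obtain ⟨p, q, a, b, hp, hq, hab, h00, h11, h01, h10⟩ := levi_psd hU hpsh hz hf
  rw [maDensity_eq', h00, h11, h01, h10]
  have : ((p : ℂ) * q - (a + b * Complex.I) * (a - b * Complex.I)).re = p * q - (a ^ 2 + b ^ 2) := by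
    simp
    ring
  rw [this]
  linarith

/-- the Monge-Ampère measure of a smooth psh function -/
noncomputable def maMeasure (Ω : Set (Cn 2)) (f : Cn 2 → ℝ) : Measure (Cn 2) :=
  (volume.restrict Ω).withDensity fun z => ENNReal.ofReal (maDensity f z)

lemma maMeasure_le {Ω : Set (Cn 2)} {f : Cn 2 → ℝ} {C : ℝ} {K : Set (Cn 2)}
    (hK : MeasurableSet K) (hKΩ : K ⊆ Ω) (hC : ∀ z ∈ K, maDensity f z ≤ C) :
    maMeasure Ω f K ≤ ENNReal.ofReal C * volume K := by
  unfold maMeasure
  rw [withDensity_apply _ hK, Measure.restrict_restrict hK, inter_eq_self_of_subset_left hKΩ]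
  calc ∫⁻ z in K, ENNReal.ofReal (maDensity f z) ≤ ∫⁻ _ in K, ENNReal.ofReal C := by
        apply setLIntegral_mono' hK
        intro z hz
        exact ENNReal.ofReal_le_ofReal (hC z hz)
    _ = ENNReal.ofReal C * volume K := by rw [setLIntegral_const]

theorem isMA_smooth {Ω : Set (Cn 2)} (hΩ : IsOpen Ω) {g : Cn 2 → ℝ}
    (hg : ContDiffOn ℝ (⊤ : ℕ∞) g Ω) (pg : PSH Ω (fun z => (g z : EReal))) :
    IsMA Ω (fun z => (g z : EReal)) (maMeasure Ω g) := by
  have h2top : ((2 : ℕ∞) : WithTop ℕ∞) ≤ ((⊤ : ℕ∞) : WithTop ℕ∞) := WithTop.coe_le_coe.2 le_top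
  have hg2 : ContDiffOn ℝ 2 g Ω := hg.of_le h2top
  have hcont := maDensity_cont hΩ hg2
  have hnn : ∀ z ∈ Ω, 0 ≤ maDensity g z := fun z hz => maDensity_nonneg hΩ pg hz hg2
  refine ⟨?_, ?_⟩
  · intro K hKΩ hK
    obtain ⟨C, hC⟩ := hK.exists_bound_of_continuousOn (hcont.mono hKΩ)
    refine lt_of_le_of_lt (maMeasure_le hK.measurableSet hKΩ (C := C) ?_) ?_
    · intro z hz
      exact (le_abs_self _).trans (hC z hz)
    · exact ENNReal.mul_lt_top ENNReal.ofReal_lt_top hK.measure_lt_top
  · intro U hU _ hUΩ'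
    have hUΩ : U ⊆ Ω := subset_closure.trans hUΩ'
    refine ⟨⟨fun _ => g, ?_⟩, ?_⟩
    · exact ⟨fun _ => hg.mono hUΩ, fun _ => pg.mono hUΩ, fun _ _ => antitone_const,
        fun _ _ => tendsto_const_nhds⟩
    · intro f hf χ hχ hc hs
      have hlim : ∀ z ∈ U, Tendsto (fun k => f k z) atTop (𝓝 (g z)) := by
        intro z hz
        have := hf.lim z hz
        exact_mod_cast (EReal.tendsto_coe.1 this)
      have := bt_conv hU hf.smooth (hg.mono hUΩ) hf.psh (pg.mono hUΩ) hf.anti hlim hχ hc hs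
      have e : ∫ z, χ z ∂(maMeasure Ω g) = ∫ z, χ z * maDensity g z := by
        unfold maMeasure
        rw [integral_withDensity_eq_integral_toReal_smul₀]
        · have h1 : ∫ z in Ω, (ENNReal.ofReal (maDensity g z)).toReal • χ z
              = ∫ z in Ω, χ z * maDensity g z := by
            apply setIntegral_congr_fun hΩ.measurableSet
            intro z hz
            simp only
            rw [ENNReal.toReal_ofReal (hnn z hz), smul_eq_mul, mul_comm]
          rw [h1]
          apply setIntegral_eq_integral_of_forall_compl_eq_zero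
          intro z hz
          have : χ z = 0 := image_eq_zero_of_notMem_tsupport fun h => hz (hUΩ (hs h))
          rw [this, zero_mul]
        · exact (hcont.aemeasurable hΩ.measurableSet).ennreal_ofReal
        · filter_upwards with z using ENNReal.ofReal_lt_top
      rw [e]
      exact this

end Pool.Agent.Cegrell
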