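import Mathlib
import Pool.Agent.Hhelper45.Cegrell.Domain

open MeasureTheory Filter Topology Set

namespace Pool.Agent.Cegrell

/-- `w = (s² + t²)/t` -/
noncomputable def W (z : Cn 2) : ℝ := (ls z ^ 2 + lt z ^ 2) / lt z
/-- `R = t - s² - t²` -/
noncomputable def R (z : Cn 2) : ℝ := lt z - ls z ^ 2 - lt z ^ 2

lemma R_cont : ContinuousOn R Tor := (lt_cont.sub (ls_cont.pow 2)).sub (lt_cont.pow 2)

lemma W_cont : ContinuousOn W Om := by
  apply ContinuousOn.div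
  · exact ((ls_cont.pow 2).add (lt_cont.pow 2)).mono Om_sub_Tor
  · exact lt_cont.mono Om_sub_Tor
  · intro z hz
    exact (Om.lt_pos hz).ne'

lemma Om.R_pos {z : Cn 2} (hz : z ∈ Om) : 0 < R z := by
  have := hz.2
  unfold R; linarith

lemma Om.W_pos {z : Cn 2} (hz : z ∈ Om) : 0 < W z := by
  have := Om.lt_pos hz
  unfold W; positivity

lemma Om.W_lt_one {z : Cn 2} (hz : z ∈ Om) : W z < 1 := by
  unfold W
  rw [div_lt_one (Om.lt_pos hz)]
  exact hz.2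

lemma Om.W_eq {z : Cn 2} (hz : z ∈ Om) : W z = 1 - R z / lt z := by
  have := Om.lt_pos hz
  unfold W R
  field_simp
  ring

lemma norm_zero_eq {z : Cn 2} (hz : z 0 ≠ 0) : ‖z 0‖ = Real.exp (ls z) := by
  unfold ls; rw [Real.exp_log (norm_pos_iff.2 hz)]

lemma norm_one_eq {z : Cn 2} (hz : z 1 ≠ 0) : ‖z 1‖ = Real.exp (lt z) := by
  unfold lt; rw [Real.exp_log (norm_pos_iff.2 hz)]

lemma Om_bounds {z : Cn 2} (hz : z ∈ Om) :
    Real.exp (-1) ≤ ‖z 0‖ ∧ Real.exp (-1) ≤ ‖z 1‖ ∧ ‖z 0‖ ≤ Real.exp 1 ∧ ‖z 1‖ ≤ Real.exp 1 := by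
  have h1 := Om.ls_sq hz
  have h2 := Om.lt_pos hz
  have h3 := Om.lt_lt_one hz
  rw [norm_zero_eq hz.1.1, norm_one_eq hz.1.2]
  simp only [Real.exp_le_exp]
  refine ⟨?_, by linarith, ?_, by linarith⟩
  · nlinarith
  · nlinarith

/-- closed set containing `Om` on which the logarithms are continuous -/
def Q : Set (Cn 2) := {z | Real.exp (-1) ≤ ‖z 0‖ ∧ Real.exp (-1) ≤ ‖z 1‖ ∧ ‖z 0‖ ≤ Real.exp 1 ∧
  ‖z 1‖ ≤ Real.exp 1}

lemma Q_sub_Tor : Q ⊆ Tor := by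
  intro z hz
  constructor
  · intro h
    have := hz.1
    rw [h, norm_zero] at this
    exact absurd this (not_le.2 (Real.exp_pos _))
  · intro h
    have := hz.2.1
    rw [h, norm_zero] at this
    exact absurd this (not_le.2 (Real.exp_pos _))

lemma isCompact_Q : IsCompact Q := by
  apply Metric.isCompact_of_isClosed_isBounded
  · have h0 : Continuous fun z : Cn 2 => ‖z 0‖ := (continuous_apply 0).norm
    have h1 : Continuous fun z : Cn 2 => ‖z 1‖ := (continuous_apply 1).norm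
    exact (isClosed_le continuous_const h0).inter ((isClosed_le continuous_const h1).inter
      ((isClosed_le h0 continuous_const).inter (isClosed_le h1 continuous_const)))
  · refine (Metric.isBounded_closedBall (x := (0 : Cn 2)) (r := Real.exp 1)).subset ?_
    intro z hz
    rw [mem_closedBall_zero_iff, pi_norm_le_iff_of_nonneg (Real.exp_pos _).le]
    intro i
    fin_cases i
    · exact hz.2.2.1
    · exact hz.2.2.2

lemma Om_sub_Q : Om ⊆ Q := fun _ hz => Om_bounds hz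

lemma isCompact_level {η : ℝ} (hη : 0 < η) : IsCompact {z | z ∈ Om ∧ η ≤ R z} := by
  have : {z | z ∈ Om ∧ η ≤ R z} = Q ∩ R ⁻¹' Set.Ici η := by
    ext z
    constructor
    · rintro ⟨h1, h2⟩
      exact ⟨Om_sub_Q h1, h2⟩
    · rintro ⟨h1, h2⟩
      have h2' : η ≤ R z := h2
      refine ⟨⟨Q_sub_Tor h1, ?_⟩, h2⟩
      unfold R at h2'
      linarith
  rw [this]
  apply isCompact_Q.of_isClosed_subset _ inter_subset_left
  exact (R_cont.mono Q_sub_Tor).preimage_isClosed_of_isClosed isCompact_Q.isClosed isClosed_Ici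

lemma level_nhds {η : ℝ} {z : Cn 2} (hz : z ∈ Om) (hη : η < R z) : {z | z ∈ Om ∧ η ≤ R z} ∈ 𝓝 z := by
  have h1 : Om ∈ 𝓝 z := isOpen_Om.mem_nhds hz
  have h2 : ContinuousAt R z := R_cont.continuousAt (isOpen_Tor.mem_nhds (Om_sub_Tor hz))
  filter_upwards [h1, h2.eventually (lt_mem_nhds hη)] with y hy hy'
  exact ⟨hy, hy'.le⟩

/-! ### the strict supersolution -/

/-- the strict supersolution used in the maximum principle -/
noncomputable def kf (c ε : ℝ) (z : Cn 2) : ℝ := c * (W z - 1) - ε * (ls z ^ 2 + lt z ^ 2)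

lemma kf_cont (c ε : ℝ) : ContinuousOn (kf c ε) Om :=
  (continuousOn_const.mul (W_cont.sub continuousOn_const)).sub
    (continuousOn_const.mul (((ls_cont.pow 2).add (lt_cont.pow 2)).mono Om_sub_Tor))

lemma alg_bound {c ε r s t d1 d2 x : ℝ} (hc : 0 ≤ c) (hε : 0 < ε) (hr : 0 < r) (hr1 : r ≤ 1 / 2)
    (ht : 0 < t) (ht1 : t < 1) (hs : s ^ 2 < 1) (h1 : |d1 - r * s * x| ≤ (r * s) ^ 2)
    (h2 : |d2 - r * t * x| ≤ (r * t) ^ 2) (hd : -(t / 2) ≤ d2) :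
    c * (((s + d1) ^ 2 + (t + d2) ^ 2) / (t + d2) - 1) - ε * ((s + d1) ^ 2 + (t + d2) ^ 2)
    ≤ (c * ((s ^ 2 + t ^ 2) / t - 1) - ε * (s ^ 2 + t ^ 2) + 8 * c * r ^ 4 / t ^ 3 + ε * r ^ 4)
      + (c * (2 * s / t) - ε * (2 * s)) * d1 + (c * (1 - s ^ 2 / t ^ 2) - ε * (2 * t)) * d2
      - ε * (r ^ 2 * t ^ 2 / 2) * x ^ 2 := by
  have htd : t / 2 ≤ t + d2 := by linarith
  have htd' : 0 < t + d2 := by linarith
  -- exact expansion
  have e1 : ((s + d1) ^ 2 + (t + d2) ^ 2) / (t + d2) = (s ^ 2 + t ^ 2) / t + (2 * s / t) * d1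
      + (1 - s ^ 2 / t ^ 2) * d2 + (d1 * t - s * d2) ^ 2 / ((t + d2) * t ^ 2) := by
    field_simp
    ring
  obtain ⟨a, ha⟩ : ∃ a, a = d1 - r * s * x := ⟨_, rfl⟩
  obtain ⟨b, hb⟩ : ∃ b, b = d2 - r * t * x := ⟨_, rfl⟩
  rw [← ha] at h1
  rw [← hb] at h2
  have hd1 : d1 = r * s * x + a := by rw [ha]; ring
  have hd2 : d2 = r * t * x + b := by rw [hb]; ring
  have hs1 : |s| ≤ 1 := by
    rw [abs_le]; constructor <;> nlinarith
  have hcross : |d1 * t - s * d2| ≤ 2 * r ^ 2 := by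
    have : d1 * t - s * d2 = a * t - s * b := by rw [hd1, hd2]; ring
    rw [this]
    calc |a * t - s * b| ≤ |a * t| + |s * b| := abs_sub _ _
      _ = |a| * |t| + |s| * |b| := by rw [abs_mul, abs_mul]
      _ ≤ (r * s) ^ 2 * 1 + 1 * (r * t) ^ 2 := by
          have : |t| ≤ 1 := by rw [abs_of_pos ht]; exact ht1.le
          gcongr
      _ ≤ r ^ 2 * 1 + r ^ 2 * 1 := by
          have h3 : t ^ 2 ≤ 1 := by nlinarith
          rw [mul_pow, mul_pow]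
          nlinarith [sq_nonneg r]
      _ = 2 * r ^ 2 := by ring
  have hsq : (d1 * t - s * d2) ^ 2 ≤ 4 * r ^ 4 := by
    rw [← sq_abs]
    calc |d1 * t - s * d2| ^ 2 ≤ (2 * r ^ 2) ^ 2 := by gcongr
      _ = 4 * r ^ 4 := by ring
  have e2 : (d1 * t - s * d2) ^ 2 / ((t + d2) * t ^ 2) ≤ 8 * r ^ 4 / t ^ 3 := by
    have h3 : t / 2 * t ^ 2 ≤ (t + d2) * t ^ 2 := by gcongr
    calc (d1 * t - s * d2) ^ 2 / ((t + d2) * t ^ 2) ≤ (4 * r ^ 4) / (t / 2 * t ^ 2) := by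
          gcongr
      _ = 8 * r ^ 4 / t ^ 3 := by field_simp; ring
  have e3 : r ^ 2 * t ^ 2 / 2 * x ^ 2 - r ^ 4 ≤ d2 ^ 2 := by
    have hb4 : b ^ 2 ≤ r ^ 4 := by
      rw [← sq_abs]
      calc |b| ^ 2 ≤ ((r * t) ^ 2) ^ 2 := by gcongr
        _ = r ^ 4 * t ^ 4 := by ring
        _ ≤ r ^ 4 * 1 := by
            gcongr
            exact pow_le_one₀ ht.le ht1.le
        _ = r ^ 4 := by ring
    rw [hd2]
    nlinarith [sq_nonneg (r * t * x + 2 * b)]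
  have e4 : c * ((d1 * t - s * d2) ^ 2 / ((t + d2) * t ^ 2)) ≤ 8 * c * r ^ 4 / t ^ 3 := by
    calc c * ((d1 * t - s * d2) ^ 2 / ((t + d2) * t ^ 2)) ≤ c * (8 * r ^ 4 / t ^ 3) := by gcongr
      _ = 8 * c * r ^ 4 / t ^ 3 := by ring
  have e5 : ε * (r ^ 2 * t ^ 2 / 2 * x ^ 2 - r ^ 4) ≤ ε * (d1 ^ 2 + d2 ^ 2) := by
    apply mul_le_mul_of_nonneg_left _ hε.le
    nlinarith [sq_nonneg d1]
  rw [e1]
  nlinarith [e4, e5]

lemma avg_re : Real.circleAverage (fun ζ : ℂ => ζ.re) 0 1 = 0 := by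
  rw [Real.circleAverage_def]
  have : ∀ θ : ℝ, (circleMap 0 1 θ).re = Real.cos θ := by
    intro θ
    simp [circleMap, Complex.exp_ofReal_mul_I_re]
  simp_rw [this]
  simp

lemma kf_strict {c ε : ℝ} (hc : 0 ≤ c) (hε : 0 < ε) {z : Cn 2} (hz : z ∈ Om) {K : Set (Cn 2)}
    (hK : K ∈ 𝓝 z) : ∃ ξ : Cn 2, DiscIn K z ξ ∧
      Real.circleAverage (fun ζ => kf c ε (z + ζ • ξ)) 0 1 < kf c ε z := by
  have hs := Om.ls_sq hz
  have ht := Om.lt_pos hz
  have ht1 := Om.lt_lt_one hz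
  set s := ls z with hsdef
  set t := lt z with htdef
  set ξ₀ : Cn 2 := ![(s : ℂ) * z 0, (t : ℂ) * z 1] with hξ₀
  have hKΩ : K ∩ Om ∈ 𝓝 z := inter_mem hK (isOpen_Om.mem_nhds hz)
  obtain ⟨r₀, hr₀, hdisc⟩ := exists_small_disc hKΩ ξ₀
  -- choose the radius
  obtain ⟨r, hr, hrr₀, hr1, hrsmall⟩ : ∃ r : ℝ, 0 < r ∧ r ≤ r₀ ∧ r ≤ 1 / 4 ∧
      r ^ 2 * (8 * c / t ^ 3 + ε) < ε * t ^ 2 / 4 := by
    have hlim : Tendsto (fun r : ℝ => r ^ 2 * (8 * c / t ^ 3 + ε)) (𝓝[>] 0) (𝓝 0) := by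
      have : Tendsto (fun r : ℝ => r ^ 2 * (8 * c / t ^ 3 + ε)) (𝓝 0)
          (𝓝 (0 ^ 2 * (8 * c / t ^ 3 + ε))) := (Continuous.tendsto (by fun_prop) 0)
      simp only [ne_eq, OfNat.ofNat_ne_zero, not_false_eq_true, zero_pow, zero_mul] at this
      exact this.mono_left nhdsWithin_le_nhds
    have hpos : 0 < ε * t ^ 2 / 4 := by positivity
    have hev := hlim.eventually (gt_mem_nhds hpos)
    have hev2 : ∀ᶠ r : ℝ in 𝓝[>] 0, r < min r₀ (1 / 4) := by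
      apply nhdsWithin_le_nhds
      exact gt_mem_nhds (by positivity)
    obtain ⟨r, h1, h2, h3⟩ := (hev.and (hev2.and self_mem_nhdsWithin)).exists
    exact ⟨r, h3, (h2.trans_le (min_le_left _ _)).le, (h2.trans_le (min_le_right _ _)).le, h1⟩
  have hd := hdisc r hr.le hrr₀
  refine ⟨(r : ℂ) • ξ₀, hd.mono inter_subset_left, ?_⟩
  have hdO : DiscIn Om z ((r : ℂ) • ξ₀) := hd.mono inter_subset_right
  have hdT : DiscIn Tor z ((r : ℂ) • ξ₀) := hdO.mono Om_sub_Tor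
  -- coordinates
  have hs1 : |s| ≤ 1 := by rw [abs_le]; constructor <;> nlinarith
  have hcoord0 : ∀ ζ : ℂ, ls (z + ζ • (r : ℂ) • ξ₀) = s + Real.log ‖1 + ζ * (r * s)‖ ∨ ‖ζ‖ ≠ 1 := by
    intro ζ
    by_cases hζ : ‖ζ‖ = 1
    · left
      have e : (z + ζ • (r : ℂ) • ξ₀) 0 = z 0 * (1 + ζ * (r * s)) := by
        simp [hξ₀]; ring
      have hne : (1 + ζ * (r * s)) ≠ 0 := by
        intro h0
        have := (hdT ζ hζ.le).1
        rw [e, h0, mul_zero] at this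
        exact this rfl
      have hl : ls (z + ζ • (r : ℂ) • ξ₀) = Real.log ‖(z + ζ • (r : ℂ) • ξ₀) 0‖ := rfl
      have hs' : s = Real.log ‖z 0‖ := rfl
      rw [hl, e, norm_mul, Real.log_mul (by simpa using hz.1.1) (by simpa using hne), hs']
    · right; exact hζ
  have hcoord1 : ∀ ζ : ℂ, lt (z + ζ • (r : ℂ) • ξ₀) = t + Real.log ‖1 + ζ * (r * t)‖ ∨ ‖ζ‖ ≠ 1 := by
    intro ζ
    by_cases hζ : ‖ζ‖ = 1
    · left
      have e : (z + ζ • (r : ℂ) • ξ₀) 1 = z 1 * (1 + ζ * (r * t)) := by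
        simp [hξ₀]; ring
      have hne : (1 + ζ * (r * t)) ≠ 0 := by
        intro h0
        have := (hdT ζ hζ.le).2
        rw [e, h0, mul_zero] at this
        exact this rfl
      have hl : lt (z + ζ • (r : ℂ) • ξ₀) = Real.log ‖(z + ζ • (r : ℂ) • ξ₀) 1‖ := rfl
      have ht' : t = Real.log ‖z 1‖ := rfl
      rw [hl, e, norm_mul, Real.log_mul (by simpa using hz.1.2) (by simpa using hne), ht']
    · right; exact hζ
  -- the affine majorant
  set A : ℝ := c * ((s ^ 2 + t ^ 2) / t - 1) - ε * (s ^ 2 + t ^ 2) + 8 * c * r ^ 4 / t ^ 3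
    + ε * r ^ 4 with hA
  set α : ℝ := c * (2 * s / t) - ε * (2 * s) with hα
  set β : ℝ := c * (1 - s ^ 2 / t ^ 2) - ε * (2 * t) with hβ
  have hmaj : ∀ ζ : ℂ, ‖ζ‖ = 1 → kf c ε (z + ζ • (r : ℂ) • ξ₀) ≤
      ((A - α * s - β * t) + α * ls (z + ζ • (r : ℂ) • ξ₀) + β * lt (z + ζ • (r : ℂ) • ξ₀))
        + (-(ε * (r ^ 2 * t ^ 2 / 2))) * ζ.re ^ 2 := by
    intro ζ hζ
    have c0 := (hcoord0 ζ).resolve_right (by simpa using hζ)
    have c1 := (hcoord1 ζ).resolve_right (by simpa using hζ)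
    unfold kf W
    rw [c0, c1]
    have hn0 : ‖ζ * ((r : ℂ) * s)‖ = r * |s| := by
      rw [norm_mul, norm_mul, hζ]
      simp [abs_of_pos hr]
    have hn1 : ‖ζ * ((r : ℂ) * t)‖ = r * t := by
      rw [norm_mul, norm_mul, hζ]
      simp [abs_of_pos hr, abs_of_pos ht]
    have hb0 := log_one_add_bound (η := ζ * ((r : ℂ) * s)) (by rw [hn0]; nlinarith [abs_nonneg s])
    have hb1 := log_one_add_bound (η := ζ * ((r : ℂ) * t)) (by rw [hn1]; nlinarith)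
    have hre0 : (ζ * ((r : ℂ) * s)).re = r * s * ζ.re := by
      simp [Complex.mul_re]; ring
    have hre1 : (ζ * ((r : ℂ) * t)).re = r * t * ζ.re := by
      simp [Complex.mul_re]; ring
    rw [hre0, hn0] at hb0
    rw [hre1, hn1] at hb1
    have hx : ζ.re ^ 2 ≤ 1 := by
      have := Complex.abs_re_le_norm ζ
      rw [hζ] at this
      rw [← sq_abs]
      nlinarith [abs_nonneg ζ.re]
    have hsqa : (r * |s|) ^ 2 = (r * s) ^ 2 := by rw [mul_pow, mul_pow, sq_abs]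
    rw [hsqa] at hb0
    have hd2 : -(t / 2) ≤ Real.log ‖1 + ζ * ((r : ℂ) * t)‖ := by
      have h1 := (abs_le.1 hb1).1
      have h2 : -(r * t) ≤ r * t * ζ.re := by
        have h3 : -1 ≤ ζ.re := by nlinarith
        have h4 : 0 < r * t := by positivity
        nlinarith
      have h5 : (r * t) ^ 2 ≤ r * t := by
        have h4 : 0 < r * t := by positivity
        have h6 : r * t ≤ 1 := by nlinarith
        nlinarith
      nlinarith
    have := alg_bound (c := c) (ε := ε) (r := r) (s := s) (t := t) (x := ζ.re) hc hε hr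
      (by linarith) ht ht1 hs hb0 hb1 hd2
    rw [hA, hα, hβ]
    linarith
  have hcs : ContinuousOn (fun ζ : ℂ => ls (z + ζ • (r : ℂ) • ξ₀)) (Metric.sphere 0 1) :=
    hdT.continuousOn ls_cont
  have hct : ContinuousOn (fun ζ : ℂ => lt (z + ζ • (r : ℂ) • ξ₀)) (Metric.sphere 0 1) :=
    hdT.continuousOn lt_cont
  have haff : ContinuousOn (fun ζ : ℂ => (A - α * s - β * t) + α * ls (z + ζ • (r : ℂ) • ξ₀)
      + β * lt (z + ζ • (r : ℂ) • ξ₀)) (Metric.sphere 0 1) :=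
    (continuousOn_const.add (continuousOn_const.mul hcs)).add (continuousOn_const.mul hct)
  have hre : ContinuousOn (fun ζ : ℂ => (-(ε * (r ^ 2 * t ^ 2 / 2))) * ζ.re ^ 2)
      (Metric.sphere 0 1) := by fun_prop
  have hsum : ContinuousOn (fun ζ : ℂ => ((A - α * s - β * t) + α * ls (z + ζ • (r : ℂ) • ξ₀)
      + β * lt (z + ζ • (r : ℂ) • ξ₀)) + (-(ε * (r ^ 2 * t ^ 2 / 2))) * ζ.re ^ 2)
      (Metric.sphere 0 1) := haff.add hre
  have hle := avg_mono (hdO.continuousOn (kf_cont c ε)) hsum hmaj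
  rw [avg_add' haff hre, avg_affine hdT, avg_smul', avg_re_sq] at hle
  refine lt_of_le_of_lt hle ?_
  rw [← hsdef, ← htdef]
  have hk : kf c ε z = c * ((s ^ 2 + t ^ 2) / t - 1) - ε * (s ^ 2 + t ^ 2) := rfl
  rw [hk, hA]
  have h8 : 8 * c * r ^ 4 / t ^ 3 + ε * r ^ 4 = r ^ 2 * (r ^ 2 * (8 * c / t ^ 3 + ε)) := by
    field_simp
  have h9 : r ^ 2 * (r ^ 2 * (8 * c / t ^ 3 + ε)) < r ^ 2 * (ε * t ^ 2 / 4) := by
    apply mul_lt_mul_of_pos_left hrsmall (by positivity)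
  have h10 : r ^ 2 * (ε * t ^ 2 / 4) = ε * (r ^ 2 * t ^ 2 / 2) * (1 / 2) := by ring
  linarith

end Pool.Agent.Cegrell
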