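import Mathlib
import Pool.Agent.Hhelper45.Cegrell.Main

open MeasureTheory Filter Topology Set

namespace Pool.Agent.Cegrell

lemma le_of_forall_eps {a : EReal} {b C : ℝ} (h : ∀ ε > 0, a ≤ ((b + C * ε : ℝ) : EReal)) :
    a ≤ (b : EReal) := by
  have hlim : Tendsto (fun ε : ℝ => ((b + C * ε : ℝ) : EReal)) (𝓝[>] 0) (𝓝 (b : EReal)) := by
    have h1 : Tendsto (fun ε : ℝ => b + C * ε) (𝓝 0) (𝓝 (b + C * 0)) :=
      Continuous.tendsto (by fun_prop) 0
    rw [mul_zero, add_zero] at h1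
    exact (continuous_coe_real_ereal.tendsto b).comp (h1.mono_left nhdsWithin_le_nhds)
  apply ge_of_tendsto hlim
  filter_upwards [self_mem_nhdsWithin] with ε hε
  exact h ε hε

/-- `c (w - 1)` is maximal. -/
lemma max_H {c : ℝ} (hc : 0 ≤ c) {ψ : Cn 2 → EReal} (hψ : PSH Om ψ) {K : Set (Cn 2)}
    (hK : IsCompact K) (hKO : K ⊆ Om)
    (hout : ∀ z ∈ Om, z ∉ K → ψ z ≤ ((c * (W z - 1) : ℝ) : EReal)) :
    ∀ z ∈ Om, ψ z ≤ ((c * (W z - 1) : ℝ) : EReal) := by
  intro z hz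
  by_cases hzK : z ∉ K
  · exact hout z hz hzK
  push Not at hzK
  -- a level between
  obtain ⟨y, hy, hmin⟩ := hK.exists_isMinOn ⟨z, hzK⟩ ((R_cont.mono Om_sub_Tor).mono hKO)
  have hRy := Om.R_pos (hKO hy)
  set η := R y / 2 with hη
  have hηpos : 0 < η := by positivity
  have hKR : ∀ x ∈ K, η < R x := by
    intro x hx
    have : R y ≤ R x := hmin hx
    linarith
  set K' : Set (Cn 2) := {z | z ∈ Om ∧ η ≤ R z} with hK'
  have hK'c : IsCompact K' := isCompact_level hηpos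
  have hK'O : K' ⊆ Om := fun _ h => h.1
  apply le_of_forall_eps (C := 1)
  intro ε hε
  have := max_principle (B := Kᶜ) (C := ε) (k := kf c ε) hψ hK'c hK'O
    ((kf_cont c ε).mono hK'O) ?_ ?_ z ⟨hz, (hKR z hzK).le⟩
  · refine this.trans ?_
    rw [EReal.coe_le_coe_iff]
    unfold kf
    nlinarith [sq_nonneg (ls z), sq_nonneg (lt z)]
  · intro x hx hxB
    refine (hout x hx.1 hxB).trans ?_
    rw [EReal.coe_le_coe_iff]
    unfold kf
    have h1 := hx.1.2
    have h2 := Om.lt_lt_one hx.1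
    nlinarith
  · intro x hx hxB
    have hxK : x ∈ K := by simpa using hxB
    exact kf_strict hc hε hx.1 (level_nhds hx.1 (hKR x hxK))

/-! ### The upper bound for `φ` -/

lemma phi_bound {φ : Cn 2 → EReal} (hφ : PSH Om φ)
    (h : ∀ z ∈ Om, φ z ≤ ((W z ^ 2 - W z : ℝ) : EReal)) :
    ∀ z ∈ Om, φ z ≤ ((1 / 4 * (W z - 1) : ℝ) : EReal) := by
  intro z hz
  have hW0 := Om.W_pos hz
  have hW1 := Om.W_lt_one hz
  have ht0 := Om.lt_pos hz
  by_cases hW : 1 / 2 < W z
  · refine (h z hz).trans ?_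
    rw [EReal.coe_le_coe_iff]
    nlinarith
  push Not at hW
  -- the annulus
  set t := lt z with ht
  have hWz : ls z ^ 2 + t ^ 2 ≤ t / 2 := by
    have : W z = (ls z ^ 2 + t ^ 2) / t := rfl
    rw [this, div_le_iff₀ ht0] at hW
    linarith
  set a := Real.sqrt (t * (1 / 2 - t)) with ha
  have harg : 0 ≤ t * (1 / 2 - t) := by nlinarith [sq_nonneg (ls z)]
  have ha2 : a ^ 2 = t * (1 / 2 - t) := Real.sq_sqrt harg
  have ha0 : 0 ≤ a := Real.sqrt_nonneg _
  have hls : ls z ^ 2 ≤ a ^ 2 := by rw [ha2]; nlinarith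
  set K : Set (Cn 2) := {y | y 1 = z 1 ∧ Real.exp (-a) ≤ ‖y 0‖ ∧ ‖y 0‖ ≤ Real.exp a} with hKdef
  have hne : ∀ y ∈ K, y 0 ≠ 0 := by
    intro y hy h0
    have := hy.2.1
    rw [h0, norm_zero] at this
    exact absurd this (not_le.2 (Real.exp_pos _))
  have hlsK : ∀ y ∈ K, -a ≤ ls y ∧ ls y ≤ a := by
    intro y hy
    have h1 := hy.2.1
    have h2 := hy.2.2
    rw [norm_zero_eq (hne y hy), Real.exp_le_exp] at h1 h2
    exact ⟨h1, h2⟩
  have hltK : ∀ y ∈ K, lt y = t := by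
    intro y hy
    rw [ht]
    unfold lt
    rw [hy.1]
  have hKO : K ⊆ Om := by
    intro y hy
    refine ⟨⟨hne y hy, by rw [hy.1]; exact hz.1.2⟩, ?_⟩
    rw [hltK y hy]
    obtain ⟨h1, h2⟩ := hlsK y hy
    have : ls y ^ 2 ≤ a ^ 2 := by nlinarith
    nlinarith
  have hKc : IsCompact K := by
    apply Metric.isCompact_of_isClosed_isBounded
    · have h0 : Continuous fun z : Cn 2 => ‖z 0‖ := (continuous_apply 0).norm
      exact (isClosed_eq (continuous_apply 1) continuous_const).inter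
        ((isClosed_le continuous_const h0).inter (isClosed_le h0 continuous_const))
    · exact isCompact_Q.isBounded.subset (hKO.trans Om_sub_Q)
  have hzK : z ∈ K := by
    refine ⟨rfl, ?_, ?_⟩ <;> rw [norm_zero_eq hz.1.1, Real.exp_le_exp] <;> nlinarith
  -- reduce to `φ z ≤ -1/4`
  suffices hs : φ z ≤ ((-(1 / 4) : ℝ) : EReal) by
    refine hs.trans ?_
    rw [EReal.coe_le_coe_iff]
    linarith
  apply le_of_forall_eps (C := Real.exp 1 ^ 2)
  intro ε hε
  have hbd : ∀ y ∈ K, (y 0).re ^ 2 ≤ Real.exp 1 ^ 2 := by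
    intro y hy
    have h1 := Complex.abs_re_le_norm (y 0)
    have h2 : ‖y 0‖ ≤ Real.exp 1 := (Om_bounds (hKO hy)).2.2.1
    rw [← sq_abs]
    gcongr
    exact h1.trans h2
  have hkc : Continuous fun y : Cn 2 => -(ε * (y 0).re ^ 2) := by
    have : Continuous fun y : Cn 2 => (y 0).re := Complex.continuous_re.comp (continuous_apply 0)
    fun_prop
  have := max_principle (B := {y | ‖y 0‖ = Real.exp (-a) ∨ ‖y 0‖ = Real.exp a})
    (C := -(1 / 4) + ε * Real.exp 1 ^ 2) (k := fun y => -(ε * (y 0).re ^ 2)) hφ hKc hKO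
    hkc.continuousOn ?_ ?_ z hzK
  · refine this.trans ?_
    rw [EReal.coe_le_coe_iff]
    nlinarith [sq_nonneg (z 0).re]
  · intro y hy hyB
    refine (h y (hKO hy)).trans ?_
    rw [EReal.coe_le_coe_iff]
    have h1 : ls y ^ 2 = a ^ 2 := by
      rcases hyB with h1 | h1
      · rw [norm_zero_eq (hne y hy), Real.exp_eq_exp] at h1
        rw [h1]; ring
      · rw [norm_zero_eq (hne y hy), Real.exp_eq_exp] at h1
        rw [h1]
    have hWy : W y = 1 / 2 := by
      unfold W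
      rw [hltK y hy, h1, ha2]
      field_simp
      ring
    rw [hWy]
    have := hbd y hy
    nlinarith
  · intro y hy hyB
    simp only [Set.mem_ofPred_eq, not_or] at hyB
    have h1 : Real.exp (-a) < ‖y 0‖ := lt_of_le_of_ne hy.2.1 (Ne.symm hyB.1)
    have h2 : ‖y 0‖ < Real.exp a := lt_of_le_of_ne hy.2.2 hyB.2
    obtain ⟨r, hr, hr1, hr2⟩ : ∃ r : ℝ, 0 < r ∧ Real.exp (-a) + r ≤ ‖y 0‖ ∧ ‖y 0‖ + r ≤ Real.exp a := by
      refine ⟨min (‖y 0‖ - Real.exp (-a)) (Real.exp a - ‖y 0‖), ?_, ?_, ?_⟩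
      · exact lt_min (by linarith) (by linarith)
      · have := min_le_left (‖y 0‖ - Real.exp (-a)) (Real.exp a - ‖y 0‖)
        linarith
      · have := min_le_right (‖y 0‖ - Real.exp (-a)) (Real.exp a - ‖y 0‖)
        linarith
    have hcoord : ∀ ζ : ℂ, (y + ζ • (![(r : ℂ), 0] : Cn 2)) 0 = y 0 + ζ * r := by
      intro ζ; simp
    have hcoord1 : ∀ ζ : ℂ, (y + ζ • (![(r : ℂ), 0] : Cn 2)) 1 = y 1 := by
      intro ζ; simp
    refine ⟨![(r : ℂ), 0], ?_, ?_⟩
    · intro ζ hζ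
      have hn : ‖ζ * (r : ℂ)‖ ≤ r := by
        rw [norm_mul]
        simp only [Complex.norm_real, Real.norm_eq_abs, abs_of_pos hr]
        nlinarith
      refine ⟨?_, ?_, ?_⟩
      · rw [hcoord1]; exact hy.1
      · rw [hcoord]
        have := norm_sub_le (y 0 + ζ * (r : ℂ)) (ζ * (r : ℂ))
        rw [add_sub_cancel_right] at this
        linarith
      · rw [hcoord]
        exact (norm_add_le _ _).trans (by linarith)
    · have hexp : (fun ζ : ℂ => -(ε * ((y + ζ • (![(r : ℂ), 0] : Cn 2)) 0).re ^ 2))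
          = fun ζ : ℂ => -(ε * (y 0).re ^ 2) + (-(2 * ε * r * (y 0).re)) * ζ.re
            + (-(ε * r ^ 2)) * ζ.re ^ 2 := by
        funext ζ
        rw [hcoord]
        simp only [Complex.add_re, Complex.mul_re, Complex.ofReal_re, Complex.ofReal_im, mul_zero,
          sub_zero]
        ring
      have hcr : ContinuousOn (fun ζ : ℂ => ζ.re) (Metric.sphere 0 1) := by fun_prop
      have hcr2 : ContinuousOn (fun ζ : ℂ => ζ.re ^ 2) (Metric.sphere 0 1) := by fun_prop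
      rw [hexp, avg_lin hcr hcr2, avg_re, avg_re_sq]
      have : 0 < ε * r ^ 2 := by positivity
      linarith

end Pool.Agent.Cegrell
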