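import Mathlib
import Pool.Agent.Hhelper45.Cegrell.Main2

open MeasureTheory Filter Topology Set

namespace Pool.Agent.Cegrell

/-- the counterexample `u = w² - 1` -/
noncomputable def uR (z : Cn 2) : ℝ := W z ^ 2 - 1
noncomputable def u0 (z : Cn 2) : EReal := (uR z : EReal)

lemma uR_cont : ContinuousOn uR Om := (W_cont.pow 2).sub continuousOn_const

lemma support_W {s₀ t₀ s t : ℝ} (h0 : 0 < t₀) (h : 0 < t) :
    (s₀ ^ 2 + t₀ ^ 2) / t₀ + (2 * s₀ / t₀) * (s - s₀) + (1 - s₀ ^ 2 / t₀ ^ 2) * (t - t₀)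
      ≤ (s ^ 2 + t ^ 2) / t := by
  have : (s ^ 2 + t ^ 2) / t - ((s₀ ^ 2 + t₀ ^ 2) / t₀ + (2 * s₀ / t₀) * (s - s₀)
      + (1 - s₀ ^ 2 / t₀ ^ 2) * (t - t₀)) = t * (s / t - s₀ / t₀) ^ 2 := by
    field_simp
    ring
  have h2 : 0 ≤ t * (s / t - s₀ / t₀) ^ 2 := by positivity
  linarith

lemma pos_of_mem {s t : ℝ} (h : s ^ 2 + t ^ 2 < t) : 0 < t := by
  nlinarith [sq_nonneg s, sq_nonneg t]

lemma uR_submean {z ξ : Cn 2} (hd : DiscIn Om z ξ) :
    uR z ≤ Real.circleAverage (fun ζ => uR (z + ζ • ξ)) 0 1 := by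
  apply submean_of_support (F := fun s t => ((s ^ 2 + t ^ 2) / t) ^ 2 - 1) uR_cont _ hd
  intro s₀ t₀ h0
  have ht0 := pos_of_mem h0
  refine ⟨2 * ((s₀ ^ 2 + t₀ ^ 2) / t₀) * (2 * s₀ / t₀),
    2 * ((s₀ ^ 2 + t₀ ^ 2) / t₀) * (1 - s₀ ^ 2 / t₀ ^ 2), fun s t h => ?_⟩
  have ht := pos_of_mem h
  have hs := support_W (s₀ := s₀) (s := s) ht0 ht
  have hw : 0 ≤ (s₀ ^ 2 + t₀ ^ 2) / t₀ := by positivity
  have := mul_le_mul_of_nonneg_left hs hw
  nlinarith [sq_nonneg ((s ^ 2 + t ^ 2) / t - (s₀ ^ 2 + t₀ ^ 2) / t₀)]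

lemma psh_u : PSH Om u0 := PSH.of_real uR_cont fun _ _ hd => uR_submean hd

lemma R_submean {z ξ : Cn 2} (hd : DiscIn Om z ξ) :
    -R z ≤ Real.circleAverage (fun ζ => -R (z + ζ • ξ)) 0 1 := by
  apply submean_of_support (F := fun s t => -(t - s ^ 2 - t ^ 2)) ((R_cont.mono Om_sub_Tor).neg) _ hd
  intro s₀ t₀ h0
  refine ⟨2 * s₀, 2 * t₀ - 1, fun s t h => ?_⟩
  nlinarith [sq_nonneg (s - s₀), sq_nonneg (t - t₀)]

lemma psh_negR : PSH Om (fun z => ((-R z : ℝ) : EReal)) :=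
  PSH.of_real (R_cont.mono Om_sub_Tor).neg fun _ _ hd => R_submean hd

/-- the lower barrier -/
noncomputable def vf (δ : ℝ) (z : Cn 2) : ℝ := ls z ^ 2 / (lt z + δ) + lt z - 1 - δ

lemma vf_cont {δ : ℝ} (hδ : 0 < δ) : ContinuousOn (vf δ) Om := by
  have h1 : ContinuousOn ls Om := ls_cont.mono Om_sub_Tor
  have h2 : ContinuousOn lt Om := lt_cont.mono Om_sub_Tor
  apply ContinuousOn.sub _ continuousOn_const
  apply ContinuousOn.sub _ continuousOn_const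
  apply ContinuousOn.add _ h2
  apply ContinuousOn.div (h1.pow 2) (h2.add continuousOn_const)
  intro z hz
  have := Om.lt_pos hz
  exact (by linarith : 0 < lt z + δ).ne'

lemma psh_v {δ : ℝ} (hδ : 0 < δ) : PSH Om (fun z => (vf δ z : EReal)) := by
  apply PSH.of_real (vf_cont hδ)
  intro z ξ hd
  apply submean_of_support (F := fun s t => s ^ 2 / (t + δ) + t - 1 - δ) (vf_cont hδ) _ hd
  intro s₀ t₀ h0
  have ht0 := pos_of_mem h0
  refine ⟨2 * s₀ / (t₀ + δ), 1 - s₀ ^ 2 / (t₀ + δ) ^ 2, fun s t h => ?_⟩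
  have ht := pos_of_mem h
  have h1 : 0 < t + δ := by linarith
  have h2 : 0 < t₀ + δ := by linarith
  have : s ^ 2 / (t + δ) + t - 1 - δ - (s₀ ^ 2 / (t₀ + δ) + t₀ - 1 - δ
      + 2 * s₀ / (t₀ + δ) * (s - s₀) + (1 - s₀ ^ 2 / (t₀ + δ) ^ 2) * (t - t₀))
      = (t + δ) * (s / (t + δ) - s₀ / (t₀ + δ)) ^ 2 := by
    field_simp
    ring
  have h3 : 0 ≤ (t + δ) * (s / (t + δ) - s₀ / (t₀ + δ)) ^ 2 := by positivity
  show s₀ ^ 2 / (t₀ + δ) + t₀ - 1 - δ
      + 2 * s₀ / (t₀ + δ) * (s - s₀) + (1 - s₀ ^ 2 / (t₀ + δ) ^ 2) * (t - t₀)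
      ≤ s ^ 2 / (t + δ) + t - 1 - δ
  linarith

lemma v_le_u {δ : ℝ} (hδ : 0 < δ) {z : Cn 2} (hz : z ∈ Om)
    (hR : R z < δ * (δ ^ 2 / (1 + δ)) / 2) : vf δ z ≤ uR z := by
  have ht := Om.lt_pos hz
  have ht1 := Om.lt_lt_one hz
  have hRp := Om.R_pos hz
  unfold uR vf
  rw [Om.W_eq hz]
  obtain ⟨t, htd⟩ : ∃ t, t = lt z := ⟨_, rfl⟩
  obtain ⟨ρ, hρ⟩ : ∃ ρ, ρ = R z := ⟨_, rfl⟩
  have hs : ls z ^ 2 = t - t ^ 2 - ρ := by rw [hρ, htd]; unfold R; ring
  rw [hs, ← htd, ← hρ]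
  rw [← htd] at ht ht1
  rw [← hρ] at hR hRp
  have hρt : ρ < t := by
    have := sq_nonneg (ls z)
    nlinarith
  have htδ : 0 < t + δ := by linarith
  obtain ⟨y, hy⟩ : ∃ y, y = ρ / t := ⟨_, rfl⟩
  have hy0 : 0 < y := by rw [hy]; positivity
  have hy1 : y < 1 := by rw [hy, div_lt_one ht]; exact hρt
  have e1 : (t - t ^ 2 - ρ) / (t + δ) + t - 1 - δ = -((ρ + δ * (1 - t)) / (t + δ)) - δ := by
    field_simp
    ring
  rw [e1, ← hy]
  have key : y * (2 - y) ≤ δ + (ρ + δ * (1 - t)) / (t + δ) := by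
    by_cases hc : t ≤ δ ^ 2 / (1 + δ)
    · have h1 : 1 - δ ≤ (ρ + δ * (1 - t)) / (t + δ) := by
        rw [le_div_iff₀ htδ]
        rw [le_div_iff₀ (by linarith)] at hc
        nlinarith
      nlinarith
    · push Not at hc
      have h0 : 0 ≤ (ρ + δ * (1 - t)) / (t + δ) := by
        apply div_nonneg _ htδ.le
        nlinarith
      have h2 : y ≤ δ / 2 := by
        rw [hy, div_le_iff₀ ht]
        have h3 : 0 < δ ^ 2 / (1 + δ) := by positivity
        nlinarith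
      nlinarith
  nlinarith

lemma exists_exhaust {D : ℕ → Set (Cn 2)} (hD : IsExhaustion Om D) {K : Set (Cn 2)}
    (hK : IsCompact K) (hKO : K ⊆ Om) : ∃ j, K ⊆ D j := by
  have hmono : Monotone D := monotone_nat_of_le_succ fun j =>
    subset_closure.trans (hD.closure_subset j)
  apply hK.elim_directed_cover D hD.isOpen
  · rw [hD.iUnion_eq]; exact hKO
  · exact hmono.directed_le

lemma tilde_lower {D : ℕ → Set (Cn 2)} (hD : IsExhaustion Om D) {z : Cn 2} (hz : z ∈ Om) :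
    ((W z - 1 : ℝ) : EReal) ≤ tilde Om D u0 z := by
  have hstep : ∀ δ : ℝ, 0 < δ → ((vf δ z : ℝ) : EReal) ≤ tilde Om D u0 z := by
    intro δ hδ
    set η := δ * (δ ^ 2 / (1 + δ)) / 2 with hη
    have hηp : 0 < η := by positivity
    obtain ⟨j, hj⟩ := exists_exhaust hD (isCompact_level hηp) (fun _ h => h.1)
    have h1 : ((vf δ z : ℝ) : EReal) ≤ env Om (D j) u0 z := by
      apply le_iSup₂_of_le (f := fun (ψ : Cn 2 → EReal)
        (_ : PSH Om ψ ∧ ∀ w ∈ Om \ D j, ψ w ≤ u0 w) => ψ z) (fun z => ((vf δ z : ℝ) : EReal))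
        ⟨psh_v hδ, ?_⟩ le_rfl
      intro w hw
      have hRw : R w < η := by
        by_contra hcon
        push Not at hcon
        exact hw.2 (hj ⟨hw.1, hcon⟩)
      exact EReal.coe_le_coe_iff.2 (v_le_u hδ hw.1 hRw)
    have h2 : env Om (D j) u0 z ≤ ⨆ j, env Om (D j) u0 z := le_iSup (fun j => env Om (D j) u0 z) j
    have h3 : (⨆ j, env Om (D j) u0 z) ≤ tilde Om D u0 z := by
      apply le_limsup_of_frequently_le'
      intro hev
      have := pure_le_nhdsWithin hz hev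
      exact this le_rfl
    exact h1.trans (h2.trans h3)
  have ht := Om.lt_pos hz
  have hlim : Tendsto (fun δ : ℝ => ((vf δ z : ℝ) : EReal)) (𝓝[>] 0) (𝓝 ((W z - 1 : ℝ) : EReal)) := by
    have h1 : Tendsto (fun δ : ℝ => vf δ z) (𝓝 0) (𝓝 (vf 0 z)) := by
      unfold vf
      apply Tendsto.sub _ tendsto_id
      apply Tendsto.sub _ tendsto_const_nhds
      apply Tendsto.add _ tendsto_const_nhds
      apply Tendsto.div tendsto_const_nhds (tendsto_const_nhds.add tendsto_id)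
      simpa using ht.ne'
    have h2 : vf 0 z = W z - 1 := by
      unfold vf W
      rw [add_zero]
      field_simp
      ring
    rw [h2] at h1
    exact (continuous_coe_real_ereal.tendsto _).comp (h1.mono_left nhdsWithin_le_nhds)
  apply le_of_tendsto hlim
  filter_upwards [self_mem_nhdsWithin] with δ hδ
  exact hstep δ hδ

/-- The key step: no `φ` with `φ̃ = 0` satisfies `φ + ũ ≤ u`. -/
theorem no_phi {D : ℕ → Set (Cn 2)} (hD : IsExhaustion Om D) {φ : Cn 2 → EReal} (hφ : PSH Om φ)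
    (hle : ∀ z ∈ Om, φ z + tilde Om D u0 z ≤ u0 z) :
    ∀ z ∈ Om, tilde Om D φ z ≤ ((1 / 4 * (W z - 1) : ℝ) : EReal) := by
  have h1 : ∀ z ∈ Om, φ z ≤ ((W z ^ 2 - W z : ℝ) : EReal) := by
    intro z hz
    have h2 : φ z + ((W z - 1 : ℝ) : EReal) ≤ ((W z ^ 2 - 1 : ℝ) : EReal) :=
      (add_le_add_right (tilde_lower hD hz) (φ z)).trans (hle z hz)
    by_cases hb : φ z = ⊥
    · rw [hb]; exact bot_le
    · have ht : φ z ≠ ⊤ := (hφ.lt_top z hz).ne
      obtain ⟨a, ha⟩ : ∃ a : ℝ, φ z = (a : EReal) := ⟨(φ z).toReal, (EReal.coe_toReal ht hb).symm⟩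
      rw [ha, ← EReal.coe_add, EReal.coe_le_coe_iff] at h2
      rw [ha, EReal.coe_le_coe_iff]
      linarith
  have h2 := phi_bound hφ h1
  have h3 : ∀ j, ∀ w ∈ Om, env Om (D j) φ w ≤ ((1 / 4 * (W w - 1) : ℝ) : EReal) := by
    intro j w hw
    apply iSup₂_le
    rintro ψ ⟨hψ, hψφ⟩
    have hKO : closure (D j) ⊆ Om := by
      refine (hD.closure_subset j).trans ?_
      rw [← hD.iUnion_eq]
      exact subset_iUnion D (j + 1)
    refine max_H (by norm_num) hψ (hD.isCompact_closure j) hKO ?_ w hw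
    intro x hx hxK
    exact (hψφ x ⟨hx, fun h => hxK (subset_closure h)⟩).trans (h2 x hx)
  intro z hz
  have h4 : Tendsto (fun w => ((1 / 4 * (W w - 1) : ℝ) : EReal)) (𝓝[Om] z)
      (𝓝 ((1 / 4 * (W z - 1) : ℝ) : EReal)) := by
    apply (continuous_coe_real_ereal.tendsto _).comp
    exact (continuousOn_const.mul (W_cont.sub continuousOn_const)) z hz
  have : (𝓝[Om] z).NeBot := by
    rw [← mem_closure_iff_nhdsWithin_neBot]
    exact subset_closure hz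
  rw [← h4.limsup_eq]
  refine limsup_le_limsup ?_ (by isBoundedDefault) (by isBoundedDefault)
  filter_upwards [self_mem_nhdsWithin] with w hw
  exact iSup_le fun j => h3 j w hw

end Pool.Agent.Cegrell
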