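import Mathlib
import Pool.Agent.Hhelper45.Cegrell.MA
import Pool.Agent.Hhelper45.Cegrell.Main3

open MeasureTheory Filter Topology Set

namespace Pool.Agent.Cegrell

/-! ### the smooth concave cutoff -/

/-- derivative of the cutoff -/
noncomputable def th (y : ℝ) : ℝ := Real.smoothTransition (2 - y)

/-- smooth concave version of `min r 1` -/
noncomputable def gs (r : ℝ) : ℝ := ∫ y in (0 : ℝ)..r, th y

lemma th_cont : Continuous th := Real.smoothTransition.continuous.comp (by fun_prop)

lemma th_smooth : ContDiff ℝ (⊤ : ℕ∞) th :=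
  Real.smoothTransition.contDiff.comp (contDiff_const.sub contDiff_id)

lemma th_anti : Antitone th := by
  intro a b hab
  exact Real.smoothTransition.monotone (by linarith)

lemma th_nonneg (y : ℝ) : 0 ≤ th y := Real.smoothTransition.nonneg _
lemma th_le_one (y : ℝ) : th y ≤ 1 := Real.smoothTransition.le_one _
lemma th_one {y : ℝ} (h : y ≤ 1) : th y = 1 := Real.smoothTransition.one_of_one_le (by linarith)
lemma th_zero {y : ℝ} (h : 2 ≤ y) : th y = 0 := Real.smoothTransition.zero_of_nonpos (by linarith)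

lemma th_int (a b : ℝ) : IntervalIntegrable th volume a b := th_cont.intervalIntegrable _ _

lemma gs_deriv (r : ℝ) : HasDerivAt gs (th r) r :=
  intervalIntegral.integral_hasDerivAt_right (th_int _ _)
    th_cont.aestronglyMeasurable.stronglyMeasurableAtFilter th_cont.continuousAt

lemma gs_smooth : ContDiff ℝ (⊤ : ℕ∞) gs := by
  rw [contDiff_infty_iff_deriv]
  refine ⟨fun r => (gs_deriv r).differentiableAt, ?_⟩
  have : deriv gs = th := by
    funext r
    exact (gs_deriv r).deriv
  rw [this]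
  exact th_smooth

lemma gs_sub (a b : ℝ) : gs b - gs a = ∫ y in a..b, th y := by
  unfold gs
  rw [intervalIntegral.integral_interval_sub_left (th_int _ _) (th_int _ _)]

lemma gs_tangent (r r₀ : ℝ) : gs r ≤ gs r₀ + th r₀ * (r - r₀) := by
  have h := gs_sub r₀ r
  rcases le_total r₀ r with h1 | h1
  · have h2 : ∫ y in r₀..r, th y ≤ ∫ _ in r₀..r, th r₀ := by
      apply intervalIntegral.integral_mono_on h1 (th_int _ _) (by simp)
      intro x hx
      exact th_anti hx.1
    rw [intervalIntegral.integral_const, smul_eq_mul] at h2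
    linarith
  · have h2 : ∫ _ in r..r₀, th r₀ ≤ ∫ y in r..r₀, th y := by
      apply intervalIntegral.integral_mono_on h1 (by simp) (th_int _ _)
      intro x hx
      exact th_anti hx.2
    rw [intervalIntegral.integral_const, smul_eq_mul] at h2
    rw [intervalIntegral.integral_symm] at h
    linarith

lemma gs_zero : gs 0 = 0 := by unfold gs; simp

lemma gs_sub_nonneg (r : ℝ) : 0 ≤ gs r - th r * r := by
  have := gs_tangent 0 r
  rw [gs_zero] at this
  linarith

lemma gs_eq {r : ℝ} (h0 : 0 ≤ r) (h : r ≤ 1) : gs r = r := by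
  unfold gs
  have : ∫ y in (0 : ℝ)..r, th y = ∫ _ in (0 : ℝ)..r, (1 : ℝ) := by
    apply intervalIntegral.integral_congr
    intro y hy
    rw [Set.uIcc_of_le h0] at hy
    exact th_one (hy.2.trans h)
  rw [this]
  simp

lemma gs_const {r : ℝ} (h : 2 ≤ r) : gs r = gs 2 := by
  have h1 := gs_sub 2 r
  have : ∫ y in (2 : ℝ)..r, th y = ∫ _ in (2 : ℝ)..r, (0 : ℝ) := by
    apply intervalIntegral.integral_congr
    intro y hy
    rw [Set.uIcc_of_le h] at hy
    exact th_zero hy.1
  rw [this] at h1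
  simp at h1
  linarith

lemma gs_nonneg {r : ℝ} (hr : 0 ≤ r) : 0 ≤ gs r :=
  intervalIntegral.integral_nonneg hr fun y _ => th_nonneg y

lemma gs_le_two {r : ℝ} (h : 0 ≤ r) : gs r ≤ 2 := by
  rcases le_total r 2 with h1 | h1
  · have := gs_tangent r 0
    rw [gs_zero, th_one (by norm_num)] at this
    linarith
  · rw [gs_const h1]
    have := gs_tangent 2 0
    rw [gs_zero, th_one (by norm_num)] at this
    linarith

/-! ### smoothness of the coordinate functions -/

lemma ls_smooth : ContDiffOn ℝ (⊤ : ℕ∞) ls Tor := by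
  intro z hz
  apply ContDiffAt.contDiffWithinAt
  have h1 : ContDiffAt ℝ (⊤ : ℕ∞) (fun z : Cn 2 => ‖z 0‖) z := by
    have h2 : ContDiffAt ℝ (⊤ : ℕ∞) (fun z : Cn 2 => z 0) z := (contDiff_apply ℝ ℂ (0 : Fin 2)).contDiffAt
    exact h2.norm ℝ hz.1
  exact h1.log (by simpa using hz.1)

lemma lt_smooth : ContDiffOn ℝ (⊤ : ℕ∞) lt Tor := by
  intro z hz
  apply ContDiffAt.contDiffWithinAt
  have h1 : ContDiffAt ℝ (⊤ : ℕ∞) (fun z : Cn 2 => ‖z 1‖) z := by
    have h2 : ContDiffAt ℝ (⊤ : ℕ∞) (fun z : Cn 2 => z 1) z := (contDiff_apply ℝ ℂ (1 : Fin 2)).contDiffAt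
    exact h2.norm ℝ hz.2
  exact h1.log (by simpa using hz.2)

lemma R_smooth : ContDiffOn ℝ (⊤ : ℕ∞) R Tor :=
  (lt_smooth.sub (ls_smooth.pow 2)).sub (lt_smooth.pow 2)

/-- the open set where the second coordinate has positive logarithm -/
def Tp : Set (Cn 2) := {z | z ∈ Tor ∧ 0 < lt z}

lemma isOpen_Tp : IsOpen Tp :=
  lt_cont.isOpen_inter_preimage isOpen_Tor isOpen_Ioi

lemma Om_sub_Tp : Om ⊆ Tp := fun _ hz => ⟨Om_sub_Tor hz, Om.lt_pos hz⟩

lemma W_smooth : ContDiffOn ℝ (⊤ : ℕ∞) W Tp := by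
  apply ContDiffOn.div
  · exact ((ls_smooth.pow 2).add (lt_smooth.pow 2)).mono fun _ h => h.1
  · exact lt_smooth.mono fun _ h => h.1
  · intro z hz
    exact hz.2.ne'

/-! ### the approximants -/

/-- `φ_A = -A R g((1 + w)/(A t))` -/
noncomputable def phA (A : ℝ) (z : Cn 2) : ℝ := -(A * R z * gs ((1 + W z) / (A * lt z)))

lemma phA_smooth {A : ℝ} (hA : 0 < A) : ContDiffOn ℝ (⊤ : ℕ∞) (phA A) Tp := by
  unfold phA
  apply ContDiffOn.neg
  apply ContDiffOn.mul
  · exact contDiffOn_const.mul (R_smooth.mono fun _ h => h.1)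
  · apply gs_smooth.comp_contDiffOn
    apply ContDiffOn.div
    · exact contDiffOn_const.add W_smooth
    · exact contDiffOn_const.mul (lt_smooth.mono fun _ h => h.1)
    · intro z hz
      exact (mul_pos hA hz.2).ne'

lemma uR_eq {z : Cn 2} (hz : z ∈ Om) : -uR z = R z * (1 + W z) / lt z := by
  have h := Om.W_eq hz
  have ht := Om.lt_pos hz
  have : R z = (1 - W z) * lt z := by
    rw [h]; field_simp; ring
  unfold uR
  rw [this]
  field_simp
  ring

lemma phA_psh {A : ℝ} (hA : 0 < A) : PSH Om (fun z => (phA A z : EReal)) := by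
  have hc : ContinuousOn (phA A) Om := (phA_smooth hA).continuousOn.mono Om_sub_Tp
  apply PSH.of_real hc
  intro z ξ hd
  have hz := hd.center
  set r₀ := (1 + W z) / (A * lt z) with hr₀
  have hr₀0 : 0 ≤ r₀ := by
    have := Om.W_pos hz
    have := Om.lt_pos hz
    positivity
  set α := A * (gs r₀ - th r₀ * r₀) with hα
  set β := th r₀ with hβ
  have hα0 : 0 ≤ α := mul_nonneg hA.le (gs_sub_nonneg r₀)
  have hβ0 : 0 ≤ β := th_nonneg r₀
  have hlow : ∀ y ∈ Om, 0 + α * (-R y) + β * uR y ≤ phA A y := by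
    intro y hy
    have h1 := gs_tangent ((1 + W y) / (A * lt y)) r₀
    have h2 := mul_le_mul_of_nonneg_left h1 (mul_nonneg hA.le (Om.R_pos hy).le)
    have h3 := uR_eq hy
    have ht := Om.lt_pos hy
    have h4 : A * R y * ((1 + W y) / (A * lt y)) = -uR y := by
      rw [h3]; field_simp
    unfold phA
    have h5 : A * R y * (gs r₀ + th r₀ * ((1 + W y) / (A * lt y) - r₀))
        = α * R y + β * (A * R y * ((1 + W y) / (A * lt y))) := by
      rw [hα, hβ]; ring
    rw [h5, h4] at h2
    linarith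
  have heq : 0 + α * (-R z) + β * uR z = phA A z := by
    have h3 := uR_eq hz
    have ht := Om.lt_pos hz
    have h4 : A * R z * r₀ = -uR z := by
      rw [h3, hr₀]; field_simp
    have h6 : uR z = -(A * R z * r₀) := by linarith
    unfold phA
    rw [← hr₀, h6, hα, hβ]
    ring
  have c1 : ContinuousOn (fun ζ : ℂ => -R (z + ζ • ξ)) (Metric.sphere 0 1) :=
    (hd.mono Om_sub_Tor).continuousOn (R_cont.neg)
  have c2 : ContinuousOn (fun ζ : ℂ => uR (z + ζ • ξ)) (Metric.sphere 0 1) :=
    hd.continuousOn uR_cont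
  have h1 := R_submean hd
  have h2 := uR_submean hd
  calc phA A z = 0 + α * (-R z) + β * uR z := heq.symm
    _ ≤ 0 + α * Real.circleAverage (fun ζ => -R (z + ζ • ξ)) 0 1
        + β * Real.circleAverage (fun ζ => uR (z + ζ • ξ)) 0 1 := by gcongr
    _ = Real.circleAverage (fun ζ => 0 + α * (-R (z + ζ • ξ)) + β * uR (z + ζ • ξ)) 0 1 :=
        (avg_lin c1 c2 0 α β).symm
    _ ≤ Real.circleAverage (fun ζ => phA A (z + ζ • ξ)) 0 1 := by
        apply avg_mono
        · exact (continuousOn_const.add (continuousOn_const.mul c1)).add (continuousOn_const.mul c2)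
        · exact hd.continuousOn hc
        · intro ζ hζ
          exact hlow _ (hd ζ hζ.le)

lemma phA_nonpos {A : ℝ} (hA : 0 < A) {z : Cn 2} (hz : z ∈ Om) :
    phA A z ≤ 0 ∧ -(2 * A * R z) ≤ phA A z := by
  have h1 := Om.W_pos hz
  have h2 := Om.lt_pos hz
  have h3 := Om.R_pos hz
  have hr : 0 ≤ (1 + W z) / (A * lt z) := by positivity
  have h4 := gs_nonneg hr
  have h5 := gs_le_two hr
  unfold phA
  have h6 : 0 ≤ A * R z := by positivity
  constructor
  · have := mul_nonneg h6 h4
    linarith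
  · have := mul_le_mul_of_nonneg_left h5 h6
    linarith

/-- on the closure of `Om` -/
lemma closure_facts {w : Cn 2} (hw : w ∈ closure Om) : w ∈ Tor ∧ 0 ≤ lt w ∧ 0 ≤ R w ∧
    (0 < R w → w ∈ Om) := by
  have hQ : w ∈ Q := (closure_minimal Om_sub_Q isCompact_Q.isClosed) hw
  have hT : w ∈ Tor := Q_sub_Tor hQ
  have hne : (𝓝[Om] w).NeBot := mem_closure_iff_nhdsWithin_neBot.1 hw
  have h1 : Tendsto lt (𝓝[Om] w) (𝓝 (lt w)) :=
    (lt_cont.continuousAt (isOpen_Tor.mem_nhds hT)).mono_left nhdsWithin_le_nhds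
  have h2 : Tendsto R (𝓝[Om] w) (𝓝 (R w)) :=
    (R_cont.continuousAt (isOpen_Tor.mem_nhds hT)).mono_left nhdsWithin_le_nhds
  refine ⟨hT, ?_, ?_, ?_⟩
  · apply ge_of_tendsto h1
    filter_upwards [self_mem_nhdsWithin] with y hy using (Om.lt_pos hy).le
  · apply ge_of_tendsto h2
    filter_upwards [self_mem_nhdsWithin] with y hy using (Om.R_pos hy).le
  · intro h
    refine ⟨hT, ?_⟩
    unfold R at h
    linarith

lemma phA_boundary {A : ℝ} (hA : 0 < A) {w : Cn 2} (hw : w ∈ frontier Om) :
    Tendsto (fun z => (phA A z : EReal)) (𝓝[Om] w) (𝓝 0) := by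
  have hcl : w ∈ closure Om := frontier_subset_closure hw
  obtain ⟨hT, -, hR, hOm⟩ := closure_facts hcl
  have hR0 : R w = 0 := by
    by_contra hne
    have : w ∈ Om := hOm (lt_of_le_of_ne hR (Ne.symm hne))
    rw [frontier, isOpen_Om.interior_eq] at hw
    exact hw.2 this
  have h2 : Tendsto R (𝓝[Om] w) (𝓝 0) := by
    rw [← hR0]
    exact (R_cont.continuousAt (isOpen_Tor.mem_nhds hT)).mono_left nhdsWithin_le_nhds
  have h3 : Tendsto (fun z => -(2 * A * R z)) (𝓝[Om] w) (𝓝 0) := by
    have := (h2.const_mul (2 * A)).neg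
    simpa using this
  have h4 : Tendsto (phA A) (𝓝[Om] w) (𝓝 0) := by
    apply tendsto_of_tendsto_of_tendsto_of_le_of_le' h3 tendsto_const_nhds
    · filter_upwards [self_mem_nhdsWithin] with y hy using (phA_nonpos hA hy).2
    · filter_upwards [self_mem_nhdsWithin] with y hy using (phA_nonpos hA hy).1
  exact (continuous_coe_real_ereal.tendsto 0).comp h4

/-- The Monge-Ampère density of the approximant is bounded on `Om`. -/
lemma phA_density_bdd {A : ℝ} (hA : 0 < A) : ∃ C : ℝ, ∀ z ∈ Om, maDensity (phA A) z ≤ C := by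
  have h2top : ((2 : ℕ∞) : WithTop ℕ∞) ≤ ((⊤ : ℕ∞) : WithTop ℕ∞) := WithTop.coe_le_coe.2 le_top
  have hcompact : IsCompact (closure Om) :=
    isCompact_Q.of_isClosed_subset isClosed_closure (closure_minimal Om_sub_Q isCompact_Q.isClosed)
  have hloc : ∀ y ∈ closure Om, ∃ t ∈ 𝓝[closure Om] y, ∃ C : ℝ, ∀ z ∈ t, z ∈ Om →
      maDensity (phA A) z ≤ C := by
    intro y hy
    obtain ⟨hT, hlt, -, -⟩ := closure_facts hy
    rcases hlt.lt_or_eq with hpos | hzero
    · have hyTp : y ∈ Tp := ⟨hT, hpos⟩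
      have hc : ContinuousAt (maDensity (phA A)) y :=
        (maDensity_cont isOpen_Tp ((phA_smooth hA).of_le h2top)).continuousAt
          (isOpen_Tp.mem_nhds hyTp)
      have hev := hc.eventually (gt_mem_nhds (lt_add_one (maDensity (phA A) y)))
      exact ⟨_, nhdsWithin_le_nhds hev, maDensity (phA A) y + 1, fun z hz _ => le_of_lt hz⟩
    · -- near the exceptional torus the approximant is `-A c R`
      set F : Cn 2 → ℝ := fun z => -(A * R z * gs 2) with hF
      have hFs : ContDiffOn ℝ 2 F Tor :=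
        ((contDiffOn_const.mul (R_smooth.of_le h2top)).mul contDiffOn_const).neg
      have hc : ContinuousAt (maDensity F) y :=
        (maDensity_cont isOpen_Tor hFs).continuousAt (isOpen_Tor.mem_nhds hT)
      have hev := hc.eventually (gt_mem_nhds (lt_add_one (maDensity F y)))
      have hltc : ContinuousAt lt y := lt_cont.continuousAt (isOpen_Tor.mem_nhds hT)
      have hev2 : ∀ᶠ z in 𝓝 y, lt z < 1 / (2 * A) := by
        apply hltc.eventually (gt_mem_nhds _)
        rw [← hzero]
        positivity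
      refine ⟨_, nhdsWithin_le_nhds (hev.and hev2.eventually_nhds), maDensity F y + 1,
        fun z hz hzOm => ?_⟩
      have h1 : phA A =ᶠ[𝓝 z] F := by
        filter_upwards [hz.2, isOpen_Om.mem_nhds hzOm] with x hx hxOm
        have ht := Om.lt_pos hxOm
        have hW := Om.W_pos hxOm
        have h2 : 2 ≤ (1 + W x) / (A * lt x) := by
          rw [le_div_iff₀ (mul_pos hA ht)]
          rw [lt_div_iff₀ (by positivity)] at hx
          nlinarith
        unfold phA
        rw [gs_const h2]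
      rw [maDensity_congr h1]
      exact le_of_lt hz.1
  -- compactness
  refine hcompact.induction_on (p := fun s => ∃ C : ℝ, ∀ z ∈ s, z ∈ Om → maDensity (phA A) z ≤ C)
    ?_ ?_ ?_ hloc |>.imp fun C hC z hz => hC z (subset_closure hz) hz
  · exact ⟨0, by simp⟩
  · rintro s t hst ⟨C, hC⟩
    exact ⟨C, fun z hz => hC z (hst hz)⟩
  · rintro s t ⟨C, hC⟩ ⟨C', hC'⟩
    refine ⟨max C C', fun z hz hzO => ?_⟩
    rcases hz with hz | hz
    · exact (hC z hz hzO).trans (le_max_left _ _)
    · exact (hC' z hz hzO).trans (le_max_right _ _)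

lemma isBounded_Om : Bornology.IsBounded Om := isCompact_Q.isBounded.subset Om_sub_Q

lemma phA_mass {A : ℝ} (hA : 0 < A) : maMeasure Om (phA A) Om < ⊤ := by
  obtain ⟨C, hC⟩ := phA_density_bdd hA
  refine lt_of_le_of_lt (maMeasure_le isOpen_Om.measurableSet subset_rfl hC) ?_
  exact ENNReal.mul_lt_top ENNReal.ofReal_lt_top isBounded_Om.measure_lt_top

lemma phA_isMA {A : ℝ} (hA : 0 < A) : IsMA Om (fun z => (phA A z : EReal)) (maMeasure Om (phA A)) :=
  isMA_smooth isOpen_Om ((phA_smooth hA).mono Om_sub_Tp) (phA_psh hA)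

lemma phA_E0 {A : ℝ} (hA : 0 < A) : MemE0 Om (fun z => (phA A z : EReal)) where
  psh := phA_psh hA
  nonpos := fun z hz => by exact_mod_cast (phA_nonpos hA hz).1
  bounded := by
    refine ⟨-(2 * A), fun z hz => ?_⟩
    have h1 := (phA_nonpos hA hz).2
    have h2 : R z < 1 := by
      have := Om.lt_lt_one hz
      unfold R
      nlinarith [sq_nonneg (ls z), sq_nonneg (lt z)]
    have h3 := Om.R_pos hz
    rw [EReal.coe_le_coe_iff]
    nlinarith
  boundary := fun w hw => phA_boundary hA hw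
  finiteMass := ⟨_, phA_isMA hA, phA_mass hA⟩

/-- the function `u` belongs to the Cegrell class -/
theorem u_memE : MemE Om u0 where
  psh := psh_u
  nonpos := by
    intro z hz
    have h1 := Om.W_pos hz
    have h2 := Om.W_lt_one hz
    have : uR z ≤ 0 := by unfold uR; nlinarith
    unfold u0
    exact_mod_cast this
  approx := by
    intro z hz
    have ht := Om.lt_pos hz
    set t₀ := lt z / 2 with ht₀
    have ht₀p : 0 < t₀ := by positivity
    set A := 2 / t₀ with hA
    have hAp : 0 < A := by positivity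
    have hopen : IsOpen (Om ∩ lt ⁻¹' Set.Ioi t₀) :=
      (lt_cont.mono Om_sub_Tor).isOpen_inter_preimage isOpen_Om isOpen_Ioi
    have heq : ∀ w ∈ Om ∩ lt ⁻¹' Set.Ioi t₀, (phA A w : EReal) = u0 w := by
      rintro w ⟨hw, hwt⟩
      have hwt' : t₀ < lt w := hwt
      have hlt := Om.lt_pos hw
      have hW0 := Om.W_pos hw
      have hW1 := Om.W_lt_one hw
      have h1 : (1 + W w) / (A * lt w) ≤ 1 := by
        rw [div_le_one (by positivity), hA]
        have : 2 / t₀ * lt w = 2 * (lt w / t₀) := by ring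
        rw [this]
        have h2 : 1 < lt w / t₀ := by rw [one_lt_div ht₀p]; exact hwt'
        linarith
      have h2 : phA A w = uR w := by
        unfold phA
        rw [gs_eq (by positivity) h1]
        have h3 := uR_eq hw
        have h4 : A * R w * ((1 + W w) / (A * lt w)) = R w * (1 + W w) / lt w := by
          field_simp
        rw [h4, ← h3]
        ring
      unfold u0
      rw [h2]
    refine ⟨Om ∩ lt ⁻¹' Set.Ioi t₀, hopen.mem_nhds ⟨hz, ?_⟩, inter_subset_left,
      fun _ z => (phA A z : EReal), fun _ => phA_E0 hAp, fun _ _ => antitone_const, ?_, ?_⟩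
    · show t₀ < lt z
      rw [ht₀]; linarith
    · intro w hw
      simp only [heq w hw]
      exact tendsto_const_nhds
    · refine ⟨(maMeasure Om (phA A) Om).toReal, fun _ => ⟨_, phA_isMA hAp, ?_⟩⟩
      rw [ENNReal.ofReal_toReal (phA_mass hAp).ne]

end Pool.Agent.Cegrell
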